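import Pool.Agent.H55.CSDefs

set_option autoImplicit false
set_option linter.all false

/-!
# The splitting number at a regular cardinal, inside a model

All notions are relativized to a structure `(M, E)`: all quantifiers range over `M` and `E` is the membership
relation of the model.
-/

namespace Pool.Agent.SplC

open Pool.Agent.H55.SC Pool.Agent.H55.CS

universe u

variable {M : Type u} (E : M → M → Prop)

/-- In the model, `f` is a bijection from `a` to `b`. -/
def IsBij (f a b : M) : Prop :=
  IsSurj E f a b ∧ ∀ x x' y, E x a → E x' a → Rel E f x y → Rel E f x' y → x = x'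

/-- In the model, `l` is a cardinal: an ordinal which is not an image of a smaller ordinal. -/
def IsCard (l : M) : Prop := IsOrdinal E l ∧ ∀ α f, E α l → ¬ IsSurj E f α l

/-- In the model, `k` is a regular uncountable cardinal, where `w` is the set of natural numbers: a cardinal which
contains `w`, and no function from a smaller ordinal to `k` is unbounded in `k`. -/
def IsRegularUncountable (w k : M) : Prop :=
  IsCard E k ∧ E w k ∧
    ∀ α f, E α k → IsFun E f α k → ∃ β, E β k ∧ ∀ x y, E x α → Rel E f x y → E y β

/-- In the model, `l` is a singular cardinal: a cardinal with an unbounded function from a smaller ordinal to `l`. -/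
def IsSingular (l : M) : Prop :=
  IsCard E l ∧ ∃ α f, E α l ∧ IsFun E f α l ∧ ∀ z, E z l → ∃ x y, E x α ∧ Rel E f x y ∧ E z y

/-- In the model, `a` is a subset of `k` of the same cardinality as `k`. -/
def IsLarge (k a : M) : Prop := Sub E a k ∧ ∃ f, IsBij E f a k

/-- In the model, `x` splits `a`: the sets `a ∩ x` and `a \ x` have the same cardinality as `k`. -/
def SplitsAt (k x a : M) : Prop :=
  (∃ i, (∀ z, E z i ↔ E z a ∧ E z x) ∧ IsLarge E k i) ∧ ∃ d, (∀ z, E z d ↔ E z a ∧ ¬ E z x) ∧ IsLarge E k d

/-- In the model, `F` is a splitting family: a family of subsets of `k` of cardinality `k`, such that every subset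
of `k` of cardinality `k` is split by a member of `F`. -/
def IsSplittingFamily (k F : M) : Prop :=
  (∀ x, E x F → IsLarge E k x) ∧ ∀ a, IsLarge E k a → ∃ x, E x F ∧ SplitsAt E k x a

/-- In the model, the cardinal `l` is the splitting number of `k`: there is a splitting family of cardinality `l`,
and no splitting family is an image of an ordinal smaller than `l`. -/
def IsSplittingNumber (k l : M) : Prop :=
  IsCard E l ∧ (∃ F f, IsSplittingFamily E k F ∧ IsBij E f l F) ∧
    ∀ F α f, IsSplittingFamily E k F → E α l → ¬ IsSurj E f α F

end Pool.Agent.SplC
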