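import Pool.Agent.SplC.F1

set_option autoImplicit false
set_option linter.all false
universe u

/-!
# F2 (3): subsets of a regular cardinal of full cardinality are the unbounded subsets

`suc_mem_reg`: `ord_tri (suc γ) k` (`ord_suc`); if `suc γ = k` or `k ∈ suc γ` (then `k = γ` or `k ∈ γ`, against `γ ∈ k`, `not_mem_mem`, `not_mem_self`): for `suc γ = k` take `α = suc ∅ ∈ k` (`suc ∅ ∈ omega`, `omega ∈ k`, transitivity) and the constant function with value `γ` (`lam (suc ∅) (fun _ => γ)`):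
a bound `β ∈ k = suc γ` of it with `γ ∈ β`, contradiction.
`unb_bij`: `θ, e` from `wellorder A`. If `θ ∈ k` then `e` is bounded by some `β ∈ k` (`hk.bdd θ e`), against `hA` for `β`. So `k ⊆ θ` (`ord_not_mem`). Injection `k → A`: `e`. Injection `A → k`: the identity (`lam A (fun x => x)`). `csb`.
`bij_unb`: if `Img A k`, `A ⊆ k`, and `A` is not unbounded: some `γ ∈ k` with `¬ γ ∈ a` for all `a ∈ A`, so `A ⊆ suc γ ∈ k`; with `s` from `Img` the function `lam (suc γ) (fun x => iteM (x ∈ A ∧ app s x ∈ k) (app s x) ∅)` to `k` is bounded by some `β ∈ k`; but `β = app s x` for some `x ∈ A`: contradiction.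
`card_reg`: `k` is a cardinal (if `f` maps `α ∈ k` onto `k` then it is bounded by some `β ∈ k`, and `β` is a value). `large_iff`, `splitsAt_iff`: from these (`Spl k x a` of IDefs says that `a ∩ x` and `a \ x` are unbounded; `inter`, `diff`; `E z i ↔ ..` determines `i` by `ZFU.ext`).
-/

namespace Pool.Agent.SplC

open Pool.Agent.H55.SC Pool.Agent.H55.CS Pool.Agent.H55.ZFU

variable {M : Type u} [Model M] [Pool.Agent.H55.ZFU.Pure M] [Choice M]

theorem suc_mem_reg {k γ : M} (hk : Reg k) (h : γ ∈ k) : suc γ ∈ k := by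
  have h1 : suc (∅ : M) ∈ k := hk.ord.sub hk.om _ (suc_mem_omega empty_mem_omega)
  have i1 : Fn1 (fun _ : M => γ) := inferInstance
  obtain ⟨β, hβ, hβ'⟩ := hk.bdd (suc ∅) (lam (suc ∅) (fun _ : M => γ)) h1 (by
    intro x hx
    rw [app_lam hx]
    exact h)
  have h2 : γ ∈ β := by
    have h3 := hβ' ∅ (by simp)
    rwa [app_lam (by simp)] at h3
  rcases ord_tri (suc γ) (ord_suc (hk.ord.mem h)) k hk.ord with h4 | h4 | h4
  · exact h4
  · exfalso
    rw [← h4, mem_suc] at hβ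
    rcases hβ with h5 | h5
    · exact not_mem_mem h5 h2
    · rw [h5] at h2
      exact not_mem_self _ h2
  · exfalso
    rw [mem_suc] at h4
    rcases h4 with h5 | h5
    · exact not_mem_mem h5 h
    · rw [h5] at h
      exact not_mem_self _ h

theorem unb_bij {k A : M} (hk : Reg k) (hA : Unb k A) : ∃ f : M, IsBij Model.E f A k := by
  obtain ⟨θ, e, hθ, _, he1, he2, he3⟩ := wellorder A
  have h1 : θ ∉ k := by
    intro h1
    obtain ⟨β, hβ, hβ'⟩ := hk.bdd θ e h1 (fun x hx => hA.1 _ (he1 x hx))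
    obtain ⟨a, ha, ha'⟩ := hA.2 β hβ
    obtain ⟨i, hi, rfl⟩ := he3 a ha
    exact not_mem_mem (hβ' i hi) ha'
  have h2 : k ⊆ θ := ord_not_mem hθ hk.ord h1
  have i1 : Fn1 (fun x : M => x) := inferInstance
  refine csb (f := lam A (fun x : M => x)) (g := e) ?_ ?_ (fun x hx => he1 x (h2 x hx))
    (fun x x' hx hx' he => he2 x x' (h2 x hx) (h2 x' hx') he)
  · intro x hx
    rw [app_lam hx]
    exact hA.1 x hx
  · intro x x' hx hx' he
    rwa [app_lam hx, app_lam hx'] at he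

theorem bij_unb {k A : M} (hk : Reg k) (hA : A ⊆ k) (h : Img A k) : Unb k A := by
  refine ⟨hA, ?_⟩
  by_contra hcon
  push Not at hcon
  obtain ⟨γ, hγ, hγ'⟩ := hcon
  obtain ⟨s, hs⟩ := h
  have h0 : (∅ : M) ∈ k := hk.ord.sub hk.om _ empty_mem_omega
  have h1 : ∀ a : M, a ∈ A → a ∈ suc γ := by
    intro a ha
    rw [mem_suc]
    rcases ord_tri γ (hk.ord.mem hγ) a (hk.ord.mem (hA a ha)) with h2 | h2 | h2
    · exact absurd h2 (hγ' a ha)
    · exact Or.inr h2.symm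
    · exact Or.inl h2
  have i1 : Fn1 (fun x : M => iteM (x ∈ A ∧ app s x ∈ k) (app s x) ∅) := inferInstance
  obtain ⟨β, hβ, hβ'⟩ := hk.bdd (suc γ) (lam (suc γ) (fun x : M => iteM (x ∈ A ∧ app s x ∈ k) (app s x) ∅))
    (suc_mem_reg hk hγ) (by
      intro x hx
      rw [app_lam hx]
      by_cases h2 : x ∈ A ∧ app s x ∈ k
      · rw [iteM_pos h2]
        exact h2.2
      · rw [iteM_neg h2]
        exact h0)
  obtain ⟨x, hx, hxβ⟩ := hs β hβ
  have h3 := hβ' x (h1 x hx)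
  rw [app_lam (h1 x hx), iteM_pos ⟨hx, by rw [hxβ]; exact hβ⟩, hxβ] at h3
  exact not_mem_self _ h3

theorem card_reg {k : M} (hk : Reg k) : IsCard Model.E k := by
  refine ⟨isOrdinal_iff.2 hk.ord, fun α f hα hf => ?_⟩
  obtain ⟨h1, h2, h3⟩ := isSurj_iff.1 hf
  obtain ⟨β, hβ, hβ'⟩ := hk.bdd α f hα h2
  obtain ⟨x, hx, hxβ⟩ := h3 β hβ
  have h4 := hβ' x hx
  rw [hxβ] at h4
  exact not_mem_self _ h4

theorem large_iff {k a : M} (hk : Reg k) : IsLarge Model.E k a ↔ Unb k a := by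
  constructor
  · rintro ⟨h1, f, hf⟩
    refine bij_unb hk (fun x hx => h1 x hx) ?_
    exact surj_img hf.1
  · intro h
    exact ⟨fun x hx => h.1 x hx, unb_bij hk h⟩

theorem splitsAt_iff {k x a : M} (hk : Reg k) (ha : a ⊆ k) : SplitsAt Model.E k x a ↔ Spl k x a := by
  constructor
  · rintro ⟨⟨i, hi, hi'⟩, d, hd, hd'⟩
    rw [large_iff hk] at hi' hd'
    refine ⟨fun γ hγ => ?_, fun γ hγ => ?_⟩
    · obtain ⟨b, hb, hb'⟩ := hi'.2 γ hγ
      have h1 := (hi b).1 hb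
      exact ⟨b, h1.1, h1.2, hb'⟩
    · obtain ⟨b, hb, hb'⟩ := hd'.2 γ hγ
      have h1 := (hd b).1 hb
      exact ⟨b, h1.1, h1.2, hb'⟩
  · rintro ⟨h1, h2⟩
    refine ⟨⟨inter a x, fun z => mem_inter, ?_⟩, diff a x, fun z => mem_diff, ?_⟩
    · rw [large_iff hk]
      refine ⟨fun z hz => ha z (mem_inter.1 hz).1, fun γ hγ => ?_⟩
      obtain ⟨b, hb, hb', hb''⟩ := h1 γ hγ
      exact ⟨b, mem_inter.2 ⟨hb, hb'⟩, hb''⟩
    · rw [large_iff hk]
      refine ⟨fun z hz => ha z (mem_diff.1 hz).1, fun γ hγ => ?_⟩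
      obtain ⟨b, hb, hb', hb''⟩ := h2 γ hγ
      exact ⟨b, mem_diff.2 ⟨hb, hb'⟩, hb''⟩

end Pool.Agent.SplC
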