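import Pool.Agent.SplC.IDefs

set_option autoImplicit false
set_option linter.all false
universe u

/-!
# I4 (3): images inside the model

* `img_trans`: `s'' = lam a (fun x => app s' (app s x))`.
* `img_sub`: monotone in both arguments.
* `choose_fn`: choice functions. `b` is wellordered (`wellorder b`: `θ`, `e`): `f = lam a (fun x => app e (mu (fun i => i ∈ θ ∧ R x (app e i))))` (see `pick`, Seq.lean).
* `img_union`: for `ξ ∈ a` there is `s` with `∀ y ∈ P ξ, ∃ x ∈ b, app s x = y`. All such `s` can be taken in one set: replace `s` by `lam b (app s ·)` restricted to values in the set `c`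
  (value a fixed element of `c` otherwise; if `c` is empty the statement is trivial), an element of `funs b c`, whose image contains `P ξ ∩ c`. `choose_fn` gives `t` with `t ξ` such a function. Surjection from `prod a b`: `opair ξ x ↦ app (app t ξ) x` (`fst`, `snd`, `lam`).
* `img_or_inj`: `wellorder s` gives `θ`, `e`. If `μ ⊆ θ` then `e` is the injection. Otherwise `θ ∈ μ` (`ord_tri`, `ord_sub_iff`), `Img ν θ`, and `Img θ s`.
-/

namespace Pool.Agent.SplC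

open Pool.Agent.H55.ZFU

variable {M : Type u} [Model M] [Pure M]

theorem img_trans {a b c : M} (h : Img a b) (h' : Img b c) : Img a c := by
  obtain ⟨s, hs⟩ := h
  obtain ⟨s', hs'⟩ := h'
  refine ⟨lam a (fun x => app s' (app s x)), ?_⟩
  intro y hy
  obtain ⟨x', hx', rfl⟩ := hs' y hy
  obtain ⟨x, hx, rfl⟩ := hs x' hx'
  exact ⟨x, hx, app_lam hx⟩

theorem img_sub {a a' b b' : M} (h : Img a b) (ha : a ⊆ a') (hb : b' ⊆ b) : Img a' b' := by
  obtain ⟨s, hs⟩ := h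
  refine ⟨s, fun y hy => ?_⟩
  obtain ⟨x, hx, e⟩ := hs y (hb y hy)
  exact ⟨x, ha x hx, e⟩

/-- the image of a definable function -/
theorem img_of_fn {a b : M} (F : M → M) [Fn1 F] (h : ∀ y, y ∈ b → ∃ x, x ∈ a ∧ F x = y) :
    Img a b := by
  refine ⟨lam a F, fun y hy => ?_⟩
  obtain ⟨x, hx, e⟩ := h y hy
  exact ⟨x, hx, by rw [app_lam hx, e]⟩

theorem img_prod {a a' b b' : M} (h : Img a a') (h' : Img b b') : Img (prod a b) (prod a' b') := by
  obtain ⟨s, hs⟩ := h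
  obtain ⟨s', hs'⟩ := h'
  refine img_of_fn (fun p => opair (app s (fst p)) (app s' (snd p))) ?_
  intro y hy
  obtain ⟨x1, hx1, x2, hx2, rfl⟩ := mem_prod.1 hy
  obtain ⟨z1, hz1, rfl⟩ := hs x1 hx1
  obtain ⟨z2, hz2, rfl⟩ := hs' x2 hx2
  exact ⟨opair z1 z2, opair_mem_prod.2 ⟨hz1, hz2⟩, by rw [fst_opair, snd_opair]⟩

variable [Choice M]

theorem choose_fn (R : M → M → Prop) [Dfn2 R] (a b : M) (h : ∀ x, x ∈ a → ∃ y, y ∈ b ∧ R x y) :
    ∃ f : M, FnOn f a ∧ ∀ x, x ∈ a → app f x ∈ b ∧ R x (app f x) := by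
  have hR : Dfn2 R := inferInstance
  have iR : ∀ {ι : Type} (t s : (ι → M) → M) [DFun t] [DFun s], Dfn (fun v => R (t v) (s v)) :=
    fun t s => Dfn.comp2 hR t s
  obtain ⟨θ, e, hθ, _, _, _, hsur⟩ := wellorder b
  have i1 : Fn1 (fun x : M => pick θ e (fun y : M => y ∈ b ∧ R x y)) :=
    (inferInstance : DFun (fun v : Fin 1 → M => pick θ e (fun y : M => y ∈ b ∧ R (v 0) y)))
  refine ⟨lam a (fun x : M => pick θ e (fun y : M => y ∈ b ∧ R x y)), lam_fnOn _ _, fun x hx => ?_⟩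
  rw [app_lam hx]
  refine pick_spec hθ (f := e) (fun y : M => y ∈ b ∧ R x y) ?_
  obtain ⟨y, hy, hxy⟩ := h x hx
  obtain ⟨i, hi, rfl⟩ := hsur y hy
  exact ⟨i, hi, hy, hxy⟩

theorem img_union {a b c : M} (P : M → M) [Fn1 P] (h : ∀ ξ, ξ ∈ a → Img b (P ξ))
    (hc : ∀ y, y ∈ c → ∃ ξ, ξ ∈ a ∧ y ∈ P ξ) : Img (prod a b) c := by
  have hP : Fn1 P := inferInstance
  have iP : ∀ {ι : Type} (t : (ι → M) → M) [DFun t], DFun (fun v => P (t v)) := fun t => DFun.comp1 hP t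
  by_cases hne : ∃ c0, c0 ∈ c
  · obtain ⟨c0, hc0⟩ := hne
    have i1 : Dfn2 (fun ξ t : M => ∀ y : M, y ∈ P ξ → y ∈ c → ∃ x : M, x ∈ b ∧ app t x = y) :=
      (inferInstance : Dfn (fun v : Fin 2 → M => ∀ y : M, y ∈ P (v 0) → y ∈ c → ∃ x : M, x ∈ b ∧ app (v 1) x = y))
    obtain ⟨t, ht, ht'⟩ := choose_fn (fun ξ t : M => ∀ y : M, y ∈ P ξ → y ∈ c → ∃ x : M, x ∈ b ∧ app t x = y)
      a (funs b c) (by
        intro ξ hξ
        obtain ⟨s, hs⟩ := h ξ hξ
        refine ⟨lam b (fun x => iteM (app s x ∈ c) (app s x) c0), mem_funs.2 ⟨lam_fnOn _ _, ?_⟩, ?_⟩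
        · intro x hx
          rw [app_lam hx]
          by_cases hxc : app s x ∈ c
          · rw [iteM_pos hxc]; exact hxc
          · rw [iteM_neg hxc]; exact hc0
        · intro y hy hyc
          obtain ⟨x, hx, rfl⟩ := hs y hy
          exact ⟨x, hx, by rw [app_lam hx, iteM_pos hyc]⟩)
    refine img_of_fn (fun p => app (app t (fst p)) (snd p)) ?_
    intro y hy
    obtain ⟨ξ, hξ, hyξ⟩ := hc y hy
    obtain ⟨x, hx, hxy⟩ := (ht' ξ hξ).2 y hyξ hy
    exact ⟨opair ξ x, opair_mem_prod.2 ⟨hξ, hx⟩, by rw [fst_opair, snd_opair, hxy]⟩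
  · exact ⟨∅, fun y hy => (hne ⟨y, hy⟩).elim⟩

theorem img_or_inj {μ ν s : M} (hμ : IsOrd μ) (h : ∀ δ, δ ∈ μ → Img ν δ) :
    Img ν s ∨ ∃ e : M, (∀ i, i ∈ μ → app e i ∈ s) ∧
      ∀ i j, i ∈ μ → j ∈ μ → app e i = app e j → i = j := by
  obtain ⟨θ, e, hθ, _, hmem, hinj, hsur⟩ := wellorder s
  have key : μ ⊆ θ → ∃ e : M, (∀ i, i ∈ μ → app e i ∈ s) ∧
      ∀ i j, i ∈ μ → j ∈ μ → app e i = app e j → i = j := fun hsub =>
    ⟨e, fun i hi => hmem i (hsub i hi), fun i j hi hj => hinj i j (hsub i hi) (hsub j hj)⟩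
  rcases ord_tri θ hθ μ hμ with h1 | h1 | h1
  · exact Or.inl (img_trans (h θ h1) ⟨e, hsur⟩)
  · exact Or.inr (key (by rw [h1]; exact Sub.refl _))
  · exact Or.inr (key (hθ.sub h1))

end Pool.Agent.SplC
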