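import Pool.Agent.SplC.I3
import Pool.Agent.SplC.I4

set_option autoImplicit false
set_option linter.all false
universe u

/-!
# I5: the counting argument
-/

namespace Pool.Agent.SplC

open Pool.Agent.H55.ZFU

variable {M : Type u} [Model M] [Pure M] {k l cf jf mf Φ mb z X A g : M}

/-- a long sequence of small functions -/
def Bad (k cf mf Φ A g n : M) : Prop := ∃ x : M,
  (∀ ξ, ξ ∈ app mf (suc n) → app x ξ ∈ Φ ∧ Ev k A (fun a => app (app x ξ) a ∈ Cn cf n (app g a))) ∧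
  ∀ ξ ζ, ξ ∈ app mf (suc n) → ζ ∈ app mf (suc n) → ξ ≠ ζ →
    ¬ Ev k A (fun a => app (app x ξ) a = app (app x ζ) a)

omit [Pure M] in
theorem i5_ord (hU : UI k l cf jf mf) {n : M} (hn : n ∈ (omega : M)) : IsOrd (app mf n) :=
  hU.ordl.mem (hU.mu_l n hn)

omit [Pure M] in
theorem i5_sub (hU : UI k l cf jf mf) {n : M} (hn : n ∈ (omega : M)) :
    app mf n ⊆ app mf (suc n) :=
  (i5_ord hU (suc_mem_omega hn)).sub (hU.mu_mem n hn)

theorem i5_zero (hU : UI k l cf jf mf) (hC : Clo k l cf jf Φ mb z X)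
    (hD : Dcd k Φ A) (hg : Gl k Φ A g) : ¬ Bad k cf mf Φ A g ∅ := by
  rintro ⟨x, hx, hne⟩
  have hom := gl_om hU.reg hC hD hg
  have hδ : ∀ ξ, ξ ∈ app mf (suc ∅) → ∃ δ, δ ∈ k ∧ Ev k A (fun a => app (app x ξ) a = δ) := by
    intro ξ hξ
    obtain ⟨h1, h2⟩ := hx ξ hξ
    refine gl_const hU.reg hC hD hg h1 ?_
    refine Ev.mono (Ev.and hU.reg hD.unb.1 h2 hom) ?_
    rintro a ha ⟨h3, h4⟩
    exact hU.c0 _ (hC.fn g hg.mem a (hD.unb.1 a ha)) h4 _ h3
  apply hU.card1 ∅ (by simp)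
  rw [hU.mu0]
  refine img_of_fn (fun δ : M => mu (fun ξ : M => ξ ∈ app mf (suc ∅) ∧
    Ev k A (fun a => app (app x ξ) a = δ))) ?_
  intro y hy
  obtain ⟨δ, hδk, hδ⟩ := hδ y hy
  refine ⟨δ, hδk, ?_⟩
  have hs := mu_spec (fun ξ : M => ξ ∈ app mf (suc ∅) ∧ Ev k A (fun a => app (app x ξ) a = δ))
    ⟨y, (i5_ord hU (suc_mem_omega empty_mem_omega)).mem hy, hy, hδ⟩
  by_contra hney
  apply hne _ _ hs.2.1.1 hy hney
  refine Ev.mono (Ev.and hU.reg hD.unb.1 hs.2.1.2 hδ) ?_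
  rintro a ha ⟨h3, h4⟩
  rw [h3, h4]

theorem i5_inj [Choice M] (hU : UI k l cf jf mf) (hC : Clo k l cf jf Φ mb z X)
    (hD : Dcd k Φ A) (hg : Gl k Φ A g) {n : M} (hn : n ∈ (omega : M)) (hno : ¬ Bad k cf mf Φ A g n)
    {x : M}
    (hx : ∀ ξ, ξ ∈ app mf (suc (suc n)) → app x ξ ∈ Φ ∧
      Ev k A (fun a => app (app x ξ) a ∈ Cn cf (suc n) (app g a)))
    (hne : ∀ ξ ζ, ξ ∈ app mf (suc (suc n)) → ζ ∈ app mf (suc (suc n)) → ξ ≠ ζ →
      ¬ Ev k A (fun a => app (app x ξ) a = app (app x ζ) a))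
    {ζ : M} (hζ : ζ ∈ app mf (suc (suc n))) {e : M}
    (he : ∀ i, i ∈ app mf (suc n) → app e i ∈ app mf (suc (suc n)) ∧
      Ev k A (fun a => app (app x (app e i)) a ∈ suc (app (app x ζ) a)))
    (hinj : ∀ i j, i ∈ app mf (suc n) → j ∈ app mf (suc n) → app e i = app e j → i = j) : False := by
  obtain ⟨hζΦ, hζE⟩ := hx ζ hζ
  obtain ⟨x', _, hx'⟩ := choose_fn (fun η f' : M => ∀ a, a ∈ k →
    app f' a = Jn jf n (app g a) (app (app x ζ) a) (app (app x (app e η)) a)) (app mf (suc n)) Φ (by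
      intro η hη
      exact hC.jcl n g (app x ζ) (app x (app e η)) hn hg.mem hζΦ (hx _ (he η hη).1).1)
  apply hno
  refine ⟨x', ?_, ?_⟩
  · intro η hη
    obtain ⟨h1, h2⟩ := hx' η hη
    refine ⟨h1, Ev.mono (Ev.and hU.reg hD.unb.1 hζE (he η hη).2) ?_⟩
    rintro a ha ⟨h3, h4⟩
    have hak := hD.unb.1 a ha
    show app (app x' η) a ∈ Cn cf n (app g a)
    rw [h2 a hak]
    exact hU.j_c n _ _ _ hn (hC.fn g hg.mem a hak) h3 h4
  · intro η η' hη hη' hηη' hE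
    refine hne _ _ (he η hη).1 (he η' hη').1 (fun h => hηη' (hinj η η' hη hη' h)) ?_
    refine Ev.mono (Ev.and hU.reg hD.unb.1 hE (Ev.and hU.reg hD.unb.1 hζE
      (Ev.and hU.reg hD.unb.1 (he η hη).2 (he η' hη').2))) ?_
    rintro a ha ⟨h3, h4, h5, h6⟩
    have hak := hD.unb.1 a ha
    have h7 : app (app x' η) a = app (app x' η') a := h3
    rw [(hx' η hη).2 a hak, (hx' η' hη').2 a hak] at h7
    exact hU.j_inj n _ _ _ _ hn (hC.fn g hg.mem a hak) h4 h5 h6 h7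

theorem i5_succ [Choice M] (hU : UI k l cf jf mf) (hC : Clo k l cf jf Φ mb z X)
    (hD : Dcd k Φ A) (hg : Gl k Φ A g) {n : M} (hn : n ∈ (omega : M)) (hno : ¬ Bad k cf mf Φ A g n) :
    ¬ Bad k cf mf Φ A g (suc n) := by
  rintro ⟨x, hx, hne⟩
  have hsn := suc_mem_omega hn
  have hssn := suc_mem_omega hsn
  have hinj : ∀ ζ, ζ ∈ app mf (suc (suc n)) → ∀ e : M,
      (∀ i, i ∈ app mf (suc n) → app e i ∈ app mf (suc (suc n)) ∧
        Ev k A (fun a => app (app x (app e i)) a ∈ suc (app (app x ζ) a))) →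
      (∀ i j, i ∈ app mf (suc n) → j ∈ app mf (suc n) → app e i = app e j → i = j) → False :=
    fun ζ hζ e he hi => i5_inj hU hC hD hg hn hno hx hne hζ he hi
  -- the initial segments
  obtain ⟨P, hP⟩ : ∃ P : M → M, P = fun ζ => sep (app mf (suc (suc n)))
    (fun ξ => Ev k A (fun a => app (app x ξ) a ∈ suc (app (app x ζ) a))) := ⟨_, rfl⟩
  have iP : Fn1 P := by rw [hP]; infer_instance
  have memP : ∀ ζ ξ, ξ ∈ P ζ ↔ ξ ∈ app mf (suc (suc n)) ∧
      Ev k A (fun a => app (app x ξ) a ∈ suc (app (app x ζ) a)) := by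
    intro ζ ξ
    rw [hP]
    exact mem_sep
  have hImg : ∀ ζ, ζ ∈ app mf (suc (suc n)) → Img (app mf n) (P ζ) := by
    intro ζ hζ
    rcases img_or_inj (s := P ζ) (i5_ord hU hsn) (fun δ hδ => hU.card2 n δ hn hδ) with h | ⟨e, he, he'⟩
    · exact h
    · exact (hinj ζ hζ e (fun i hi => (memP ζ _).1 (he i hi)) he').elim
  have hcov : ∀ ζ, ζ ∈ app mf (suc (suc n)) → ∃ ξ, ξ ∈ app mf (suc n) ∧ ζ ∈ P ξ := by
    intro ζ hζ
    by_contra hcon
    push Not at hcon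
    have h1 : ∀ ξ, ξ ∈ app mf (suc n) → Ev k A (fun a => app (app x ξ) a ∈ app (app x ζ) a) := by
      intro ξ hξ
      have hξ2 := i5_sub hU hsn ξ hξ
      rcases hD.mem _ _ (hx ξ hξ2).1 (hx ζ hζ).1 with h | h
      · exact h
      · refine (hcon ξ hξ ((memP ξ ζ).2 ⟨hζ, Ev.mono h ?_⟩)).elim
        intro a ha h2
        have hak := hD.unb.1 a ha
        have o1 := hU.reg.ord.mem (hC.fn _ (hx ξ hξ2).1 a hak)
        have o2 := hU.reg.ord.mem (hC.fn _ (hx ζ hζ).1 a hak)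
        show app (app x ζ) a ∈ suc (app (app x ξ) a)
        rw [mem_suc]
        exact (ord_sub_iff o2 o1).1 (ord_not_mem o1 o2 h2)
    refine hinj ζ hζ (lam (app mf (suc n)) (fun i => i)) ?_ ?_
    · intro i hi
      rw [app_lam hi]
      refine ⟨i5_sub hU hsn i hi, Ev.mono (h1 i hi) ?_⟩
      intro a _ h2
      show app (app x i) a ∈ suc (app (app x ζ) a)
      rw [mem_suc]
      exact Or.inl h2
    · intro i j hi hj h
      rw [app_lam hi, app_lam hj] at h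
      exact h
  have h1 : Img (prod (app mf (suc n)) (app mf n)) (app mf (suc (suc n))) :=
    img_union P (fun ξ hξ => hImg ξ (i5_sub hU hsn ξ hξ)) hcov
  have h2 : Img (app mf (suc n)) (prod (app mf (suc n)) (app mf n)) := by
    refine img_sub (hU.pn (suc n) hsn) (Sub.refl _) ?_
    intro p hp
    obtain ⟨a, ha, b, hb, rfl⟩ := mem_prod.1 hp
    exact opair_mem_prod.2 ⟨ha, i5_sub hU hn b hb⟩
  exact hU.card1 (suc n) hsn (img_trans h2 h1)

theorem not_bad [Choice M] (hU : UI k l cf jf mf) (hC : Clo k l cf jf Φ mb z X)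
    (hD : Dcd k Φ A) (hg : Gl k Φ A g) : ∀ n, n ∈ (omega : M) → ¬ Bad k cf mf Φ A g n := by
  have : Dfn1 (fun n : M => ¬ Bad k cf mf Φ A g n) := by
    unfold Bad
    infer_instance
  exact omega_induction (fun n : M => ¬ Bad k cf mf Φ A g n) (i5_zero hU hC hD hg)
    (fun n hn ih => i5_succ hU hC hD hg hn ih)

end Pool.Agent.SplC
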