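import Pool.Agent.SplC.I3
import Pool.Agent.SplC.I4

set_option autoImplicit false
set_option linter.all false
universe u

/-!
# I6: the set `Φ` of functions
-/

namespace Pool.Agent.SplC

open Pool.Agent.H55.ZFU

section ops
variable {M : Type u} [Model M]

/-- first coordinate of the code -/
noncomputable def i6_t (p w : M) : M := fst (app p (fst (app p w)))
/-- second coordinate of the code -/
noncomputable def i6_r (p w : M) : M := snd (app p (fst (app p w)))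
/-- third coordinate of the code -/
noncomputable def i6_a (p w : M) : M := fst (app p (snd (app p w)))
/-- fourth coordinate of the code -/
noncomputable def i6_b (p w : M) : M := fst (app p (snd (app p (snd (app p w)))))
/-- fifth coordinate of the code -/
noncomputable def i6_c (p w : M) : M := snd (app p (snd (app p (snd (app p w)))))

instance i6_t_dfun {ι : Type} (t s : (ι → M) → M) [DFun t] [DFun s] :
    DFun (fun v => i6_t (t v) (s v)) := by unfold i6_t; infer_instance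
instance i6_r_dfun {ι : Type} (t s : (ι → M) → M) [DFun t] [DFun s] :
    DFun (fun v => i6_r (t v) (s v)) := by unfold i6_r; infer_instance
instance i6_a_dfun {ι : Type} (t s : (ι → M) → M) [DFun t] [DFun s] :
    DFun (fun v => i6_a (t v) (s v)) := by unfold i6_a; infer_instance
instance i6_b_dfun {ι : Type} (t s : (ι → M) → M) [DFun t] [DFun s] :
    DFun (fun v => i6_b (t v) (s v)) := by unfold i6_b; infer_instance
instance i6_c_dfun {ι : Type} (t s : (ι → M) → M) [DFun t] [DFun s] :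
    DFun (fun v => i6_c (t v) (s v)) := by unfold i6_c; infer_instance

/-- every quintuple has a code -/
theorem i6_code {l p : M} (hp : ∀ y, y ∈ prod l l → ∃ x, x ∈ l ∧ app p x = y) {c0 c1 c2 c3 c4 : M}
    (h0 : c0 ∈ l) (h1 : c1 ∈ l) (h2 : c2 ∈ l) (h3 : c3 ∈ l) (h4 : c4 ∈ l) :
    ∃ w, w ∈ l ∧ i6_t p w = c0 ∧ i6_r p w = c1 ∧ i6_a p w = c2 ∧ i6_b p w = c3 ∧ i6_c p w = c4 := by
  obtain ⟨x1, hx1, e1⟩ := hp (opair c3 c4) (opair_mem_prod.2 ⟨h3, h4⟩)
  obtain ⟨x2, hx2, e2⟩ := hp (opair c2 x1) (opair_mem_prod.2 ⟨h2, hx1⟩)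
  obtain ⟨x3, hx3, e3⟩ := hp (opair c0 c1) (opair_mem_prod.2 ⟨h0, h1⟩)
  obtain ⟨w, hw, e4⟩ := hp (opair x3 x2) (opair_mem_prod.2 ⟨hx3, hx2⟩)
  refine ⟨w, hw, ?_, ?_, ?_, ?_, ?_⟩
  · simp [i6_t, e4, e3]
  · simp [i6_r, e4, e3]
  · simp [i6_a, e4, e2]
  · simp [i6_b, e4, e2, e1]
  · simp [i6_c, e4, e2, e1]

/-- the operation `Jn` -/
noncomputable def i6_J (k jf p s w : M) : M :=
  lam k (fun a => Jn jf (i6_r p w) (app (app s (i6_a p w)) a) (app (app s (i6_b p w)) a)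
    (app (app s (i6_c p w)) a))

/-- the operation `mb` -/
noncomputable def i6_M (k mb p s w : M) : M :=
  lam k (fun a => app mb (app (app s (i6_a p w)) a))

/-- the least index of an initial segment -/
noncomputable def i6_e (cf mb z Y b : M) : M :=
  mu (fun i => i ∈ Cn cf (app mb b) b ∧ app (app z b) i = inter Y b)

/-- the operation of the initial segments -/
noncomputable def i6_E (k cf mb z X p s w : M) : M :=
  lam k (fun a => i6_e cf mb z (app X (i6_r p w)) (app (app s (i6_a p w)) a))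

theorem i6_e_dfun {cf mb z : M} {ι : Type} (t s : (ι → M) → M) [DFun t] [DFun s] :
    DFun (fun v => i6_e cf mb z (t v) (s v)) := by
  refine DFun.comp2 (F := fun a b : M => i6_e cf mb z a b) ?_ t s
  unfold i6_e
  infer_instance

theorem i6_J_dfun {k jf p : M} {ι : Type} (t s : (ι → M) → M) [DFun t] [DFun s] :
    DFun (fun v => i6_J k jf p (t v) (s v)) := by
  refine DFun.comp2 (F := fun a b : M => i6_J k jf p a b) ?_ t s
  unfold i6_J
  infer_instance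

theorem i6_M_dfun {k mb p : M} {ι : Type} (t s : (ι → M) → M) [DFun t] [DFun s] :
    DFun (fun v => i6_M k mb p (t v) (s v)) := by
  refine DFun.comp2 (F := fun a b : M => i6_M k mb p a b) ?_ t s
  unfold i6_M
  infer_instance

theorem i6_E_dfun {k cf mb z X p : M} {ι : Type} (t s : (ι → M) → M) [DFun t] [DFun s] :
    DFun (fun v => i6_E k cf mb z X p (t v) (s v)) := by
  refine DFun.comp2 (F := fun a b : M => i6_E k cf mb z X p a b) ?_ t s
  have := @i6_e_dfun M _ cf mb z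
  unfold i6_E
  infer_instance

/-- all operations -/
noncomputable def i6_H (k cf jf mb z X p s w : M) : M :=
  iteM (i6_t p w = ∅) (app s (i6_a p w))
    (iteM (i6_t p w = suc ∅) (iteM (i6_r p w ∈ (omega : M)) (i6_J k jf p s w) (app s (i6_a p w)))
      (iteM (i6_t p w = suc (suc ∅)) (i6_M k mb p s w) (i6_E k cf mb z X p s w)))

theorem i6_H_dfun {k cf jf mb z X p : M} {ι : Type} (t s : (ι → M) → M) [DFun t] [DFun s] :
    DFun (fun v => i6_H k cf jf mb z X p (t v) (s v)) := by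
  refine DFun.comp2 (F := fun a b : M => i6_H k cf jf mb z X p a b) ?_ t s
  have := @i6_J_dfun M _ k jf p
  have := @i6_M_dfun M _ k mb p
  have := @i6_E_dfun M _ k cf mb z X p
  unfold i6_H
  infer_instance

theorem i6_app_not_mem {f a x : M} (h : FnOn f a) (hx : x ∉ a) : app f x = ∅ := by
  unfold app
  refine dif_neg ?_
  rintro ⟨y, hy, _⟩
  exact hx (h.dom hy)

theorem i6_app_empty (x : M) : app (∅ : M) x = ∅ :=
  i6_app_not_mem empty_fnOn (not_mem_empty x)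

/-- all functions have values in `k` -/
def i6_Inv (k s : M) : Prop := ∀ w a, a ∈ k → app (app s w) a ∈ k

theorem i6_Inv_dfn {k : M} {ι : Type} (t : (ι → M) → M) [DFun t] :
    Dfn (fun v => i6_Inv k (t v)) := by
  refine Dfn.comp1 (P := fun a : M => i6_Inv k a) ?_ t
  unfold i6_Inv
  infer_instance

end ops

variable {M : Type u} [Model M] [Pure M]

omit [Pure M] in
theorem i6_nat {k : M} (hk : Reg k) {n : M} (hn : n ∈ (omega : M)) : n ∈ k :=
  hk.ord.2.1 _ hk.om n hn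

theorem i6_e_spec {k l cf jf mf mb z : M} (hU : UI k l cf jf mf) (hP : PwD k cf mb z) (Y : M)
    {b : M} (hb : b ∈ k) : i6_e cf mb z Y b ∈ k := by
  have hc : Cn cf (app mb b) b ∈ k := hU.c_mem _ _ (hP.mb_mem b hb) hb
  obtain ⟨i, hi, hi'⟩ := hP.sur b hb (inter Y b) (by
    rw [mem_pow']
    intro x hx
    exact (mem_inter.1 hx).2)
  have hs := mu_spec (fun i : M => i ∈ Cn cf (app mb b) b ∧ app (app z b) i = inter Y b)
    ⟨i, (hU.reg.ord.mem hc).mem hi, hi, hi'⟩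
  exact hU.reg.ord.2.1 _ hc _ hs.2.1.1

theorem i6_step {k l cf jf mf mb z X p s : M} (hU : UI k l cf jf mf) (hP : PwD k cf mb z)
    (hs : i6_Inv k s) : i6_Inv k (lam l (fun w => i6_H k cf jf mb z X p s w)) := by
  have iH : ∀ {ι : Type} (t s : (ι → M) → M) [DFun t] [DFun s],
    DFun (fun v => i6_H k cf jf mb z X p (t v) (s v)) := @i6_H_dfun M _ k cf jf mb z X p
  have iE := @i6_e_dfun M _ cf mb z
  intro w a ha
  by_cases hw : w ∈ l
  · rw [app_lam hw]
    unfold i6_H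
    by_cases h0 : i6_t p w = ∅
    · rw [iteM_pos h0]
      exact hs _ a ha
    rw [iteM_neg h0]
    by_cases h1 : i6_t p w = suc ∅
    · rw [iteM_pos h1]
      by_cases hr : i6_r p w ∈ (omega : M)
      · rw [iteM_pos hr, i6_J, app_lam ha]
        exact hU.j_mem _ _ _ _ hr (hs _ a ha) (hs _ a ha) (hs _ a ha)
      · rw [iteM_neg hr]
        exact hs _ a ha
    rw [iteM_neg h1]
    by_cases h2 : i6_t p w = suc (suc ∅)
    · rw [iteM_pos h2, i6_M, app_lam ha]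
      exact i6_nat hU.reg (hP.mb_mem _ (hs _ a ha))
    · rw [iteM_neg h2, i6_E, app_lam ha]
      exact i6_e_spec hU hP _ (hs _ a ha)
  · rw [i6_app_not_mem (lam_fnOn _ _) hw, i6_app_empty]
    exact i6_nat hU.reg (by simp)

theorem exists_Phi {k l cf jf mf mb z X : M} (hU : UI k l cf jf mf) (hP : PwD k cf mb z) :
    ∃ Φ, Clo k l cf jf Φ mb z X ∧ Img l Φ := by
  obtain ⟨p, hp⟩ := hU.pl
  have iH : ∀ {ι : Type} (t s : (ι → M) → M) [DFun t] [DFun s],
    DFun (fun v => i6_H k cf jf mb z X p (t v) (s v)) := @i6_H_dfun M _ k cf jf mb z X p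
  have iI := @i6_Inv_dfn M _ k
  have iE := @i6_e_dfun M _ cf mb z
  have hkl : k ∈ l := by
    rw [← hU.mu0]; exact hU.mu_l ∅ (by simp)
  have hksub : k ⊆ l := hU.ordl.sub hkl
  have hom : ∀ n, n ∈ (omega : M) → n ∈ l := fun n hn => hksub n (i6_nat hU.reg hn)
  obtain ⟨S, _, hS0, hSs⟩ := omega_rec (lam l (fun w => iteM (w ∈ k) (lam k (fun _ => w)) (lam k (fun a => a))))
    (fun _ s => lam l (fun w => i6_H k cf jf mb z X p s w))
  have hInv : ∀ n, n ∈ (omega : M) → i6_Inv k (app S n) := by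
    refine omega_induction (fun n : M => i6_Inv k (app S n)) ?_ ?_
    · rw [hS0]
      intro w a ha
      by_cases hw : w ∈ l
      · rw [app_lam hw]
        by_cases hwk : w ∈ k
        · rw [iteM_pos hwk, app_lam ha]; exact hwk
        · rw [iteM_neg hwk, app_lam ha]; exact ha
      · rw [i6_app_not_mem (lam_fnOn _ _) hw, i6_app_empty]
        exact i6_nat hU.reg (by simp)
    · intro n hn ih
      rw [hSs n hn]
      exact i6_step hU hP ih
  -- membership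
  obtain ⟨Φ, hΦ⟩ : ∃ Φ : M, Φ = img (prod omega l) (fun v => app (app S (fst v)) (snd v)) := ⟨_, rfl⟩
  have memΦ : ∀ f, f ∈ Φ ↔ ∃ n, n ∈ (omega : M) ∧ ∃ w, w ∈ l ∧ f = app (app S n) w := by
    intro f
    rw [hΦ, mem_img]
    constructor
    · rintro ⟨v, hv, rfl⟩
      obtain ⟨n, hn, w, hw, rfl⟩ := mem_prod.1 hv
      exact ⟨n, hn, w, hw, by rw [fst_opair, snd_opair]⟩
    · rintro ⟨n, hn, w, hw, rfl⟩
      exact ⟨opair n w, opair_mem_prod.2 ⟨hn, hw⟩, by rw [fst_opair, snd_opair]⟩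
  -- levels
  have happ : ∀ n, n ∈ (omega : M) → ∀ w, w ∈ l →
      app (app S (suc n)) w = i6_H k cf jf mb z X p (app S n) w := by
    intro n hn w hw
    rw [hSs n hn, app_lam hw]
  have hup : ∀ n, n ∈ (omega : M) → ∀ w, w ∈ l → ∃ w', w' ∈ l ∧ app (app S (suc n)) w' = app (app S n) w := by
    intro n hn w hw
    obtain ⟨w', hw', e0, _, e2, _, _⟩ := i6_code hp (hom ∅ (by simp)) hw hw hw hw
    refine ⟨w', hw', ?_⟩
    rw [happ n hn w' hw', i6_H, iteM_pos e0, e2]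
  have hmono : ∀ m, m ∈ (omega : M) → ∀ n, n ∈ m → ∀ w, w ∈ l →
      ∃ w', w' ∈ l ∧ app (app S m) w' = app (app S n) w := by
    refine omega_induction (fun m : M => ∀ n, n ∈ m → ∀ w, w ∈ l →
      ∃ w', w' ∈ l ∧ app (app S m) w' = app (app S n) w) ?_ ?_
    · intro n hn; exact (not_mem_empty n hn).elim
    · intro m hm ih n hn w hw
      rcases mem_suc.1 hn with hn | rfl
      · obtain ⟨w1, hw1, e1⟩ := ih n hn w hw
        obtain ⟨w2, hw2, e2⟩ := hup m hm w1 hw1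
        exact ⟨w2, hw2, e2.trans e1⟩
      · exact hup n hm w hw
  have hmax : ∀ n1 n2, n1 ∈ (omega : M) → n2 ∈ (omega : M) → ∃ m, m ∈ (omega : M) ∧
      (∀ w, w ∈ l → ∃ w', w' ∈ l ∧ app (app S m) w' = app (app S n1) w) ∧
      (∀ w, w ∈ l → ∃ w', w' ∈ l ∧ app (app S m) w' = app (app S n2) w) := by
    intro n1 n2 h1 h2
    rcases nat_tri h1 h2 with h | h | h
    · exact ⟨n2, h2, hmono n2 h2 n1 h, fun w hw => ⟨w, hw, rfl⟩⟩
    · subst h
      exact ⟨n1, h1, fun w hw => ⟨w, hw, rfl⟩, fun w hw => ⟨w, hw, rfl⟩⟩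
    · exact ⟨n1, h1, fun w hw => ⟨w, hw, rfl⟩, hmono n1 h1 n2 h⟩
  have hthree : ∀ f1 f2 f3, f1 ∈ Φ → f2 ∈ Φ → f3 ∈ Φ → ∃ m, m ∈ (omega : M) ∧
      ∃ w1 w2 w3, w1 ∈ l ∧ w2 ∈ l ∧ w3 ∈ l ∧ f1 = app (app S m) w1 ∧ f2 = app (app S m) w2 ∧
        f3 = app (app S m) w3 := by
    intro f1 f2 f3 h1 h2 h3
    obtain ⟨n1, hn1, w1, hw1, e1⟩ := (memΦ f1).1 h1
    obtain ⟨n2, hn2, w2, hw2, e2⟩ := (memΦ f2).1 h2
    obtain ⟨n3, hn3, w3, hw3, e3⟩ := (memΦ f3).1 h3
    obtain ⟨m, hm, g1, g2⟩ := hmax n1 n2 hn1 hn2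
    obtain ⟨m', hm', g3, g4⟩ := hmax m n3 hm hn3
    obtain ⟨u1, hu1, d1⟩ := g1 w1 hw1
    obtain ⟨u2, hu2, d2⟩ := g2 w2 hw2
    obtain ⟨v1, hv1, c1⟩ := g3 u1 hu1
    obtain ⟨v2, hv2, c2⟩ := g3 u2 hu2
    obtain ⟨v3, hv3, c3⟩ := g4 w3 hw3
    exact ⟨m', hm', v1, v2, v3, hv1, hv2, hv3, by rw [e1, c1, d1], by rw [e2, c2, d2], by rw [e3, c3]⟩
  have ne1 : (suc ∅ : M) ≠ ∅ := suc_ne_empty _
  have ne2 : (suc (suc ∅) : M) ≠ ∅ := suc_ne_empty _
  have ne3 : (suc (suc (suc ∅)) : M) ≠ ∅ := suc_ne_empty _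
  have ne21 : (suc (suc ∅) : M) ≠ suc ∅ := fun h => ne1 (suc_inj h)
  have ne31 : (suc (suc (suc ∅)) : M) ≠ suc ∅ := fun h => ne2 (suc_inj h)
  have ne32 : (suc (suc (suc ∅)) : M) ≠ suc (suc ∅) := fun h => ne21 (suc_inj h)
  have o0 : (∅ : M) ∈ (omega : M) := by simp
  have o1 : (suc ∅ : M) ∈ (omega : M) := suc_mem_omega o0
  have o2 : (suc (suc ∅) : M) ∈ (omega : M) := suc_mem_omega o1
  have o3 : (suc (suc (suc ∅)) : M) ∈ (omega : M) := suc_mem_omega o2
  refine ⟨Φ, ⟨?_, ?_, ?_, ?_, ?_, ?_⟩, ?_⟩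
  · -- fn
    intro f hf a ha
    obtain ⟨n, hn, w, hw, rfl⟩ := (memΦ f).1 hf
    exact hInv n hn w a ha
  · -- cst
    intro δ hδ
    refine ⟨app (app S ∅) δ, (memΦ _).2 ⟨∅, o0, δ, hksub δ hδ, rfl⟩, ?_⟩
    intro a ha
    rw [hS0, app_lam (hksub δ hδ), iteM_pos hδ, app_lam ha]
  · -- idn
    refine ⟨app (app S ∅) k, (memΦ _).2 ⟨∅, o0, k, hkl, rfl⟩, ?_⟩
    intro a ha
    rw [hS0, app_lam hkl, iteM_neg (not_mem_self k), app_lam ha]
  · -- jcl
    intro n h y f hn hh hy hf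
    obtain ⟨m, hm, w1, w2, w3, hw1, hw2, hw3, rfl, rfl, rfl⟩ := hthree h y f hh hy hf
    obtain ⟨w, hw, e0, e1, e2, e3, e4⟩ := i6_code hp (hom _ o1) (hom n hn) hw1 hw2 hw3
    refine ⟨app (app S (suc m)) w, (memΦ _).2 ⟨suc m, suc_mem_omega hm, w, hw, rfl⟩, ?_⟩
    intro a ha
    rw [happ m hm w hw, i6_H, e0, iteM_neg ne1, iteM_pos rfl, e1, iteM_pos hn, i6_J, app_lam ha,
      e1, e2, e3, e4]
  · -- mcl
    intro f hf
    obtain ⟨m, hm, w1, hw1, rfl⟩ := (memΦ f).1 hf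
    obtain ⟨w, hw, e0, _, e2, _, _⟩ := i6_code hp (hom _ o2) hw1 hw1 hw1 hw1
    refine ⟨app (app S (suc m)) w, (memΦ _).2 ⟨suc m, suc_mem_omega hm, w, hw, rfl⟩, ?_⟩
    intro a ha
    rw [happ m hm w hw, i6_H, e0, iteM_neg ne2, iteM_neg ne21, iteM_pos rfl, i6_M, app_lam ha, e2]
  · -- ecl
    intro j f hj hf
    obtain ⟨m, hm, w1, hw1, rfl⟩ := (memΦ f).1 hf
    obtain ⟨w, hw, e0, e1, e2, _, _⟩ := i6_code hp (hom _ o3) hj hw1 hw1 hw1
    refine ⟨app (app S (suc m)) w, (memΦ _).2 ⟨suc m, suc_mem_omega hm, w, hw, rfl⟩, ?_⟩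
    intro a ha
    rw [happ m hm w hw, i6_H, e0, iteM_neg ne3, iteM_neg ne31, iteM_neg ne32, i6_E, app_lam ha,
      e1, e2]
    rfl
  · -- Img
    refine img_of_fn (fun x : M => app (app S (fst (app p x))) (snd (app p x))) ?_
    intro f hf
    obtain ⟨n, hn, w, hw, rfl⟩ := (memΦ f).1 hf
    obtain ⟨x, hx, e⟩ := hp (opair n w) (opair_mem_prod.2 ⟨hom n hn, hw⟩)
    exact ⟨x, hx, by rw [e, fst_opair, snd_opair]⟩

end Pool.Agent.SplC
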