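import Pool.Agent.SplC.T3
import Pool.Agent.SplC.T5
import Pool.Agent.SplC.T6
import Pool.Agent.SplC.T8

set_option autoImplicit false
set_option linter.all false

/-!
# T9 (3): the assumptions of the upper bound hold in the model

`cf`, `jf`, `mf` from `exists_fn2 (DEnv.c ..)`, `exists_fn4 (DEnv.J ..)`, `exists_fn1 (DEnv.mu ..)`, so `Cn cf (lv G a) (lv G b) = lv G (D.cN a b)`, `app mf (lv G a) = lv G (D.muN a)`. `k = lv G D.kN`, `l = ll G N L`. All elements of `l`, `k` are `lv G i` (`mem_ll`, `mem_lv`), elements of `omega` are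
`lv G (D.nN n)` (`mem_om`), `suc_nN`, `lv_zero`; membership is `lv_lt`. Fields: `reg` T5; `ordl` `ll_ord`; `mu0` by definition of `kN`; `mu_mem` `D.mu_lt`; `mu_cof` `D.mu_cof`; `c_mem` `D.c_lt`; `c0` `D.c0` (`omega ⊆ lv G b` gives `D.om ≤ b`: otherwise `b < D.om`, `lv G b ∈ omega`);
`j_mem` `D.J_lt`; `j_c` `D.J_c`; `j_inj` `D.J_inj`; `card1` T6; `card2` from `D.s_sur` with `exists_fn4 (DEnv.s ..)`: `lam (lv G (D.muN n)) (fun x => app f (opair (opair (lv n) (lv δ)) (opair x x)))` (for the empty `δ` any function); `pn` from `D.pq`: `x ↦ opair (p x) (q x)`; `pl` from `D.pqL`; `pw` T8.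
`lcard`: `α ∈ l` gives `n` with `α ∈ app mf n`; if `s` maps `α` onto `l`, then `lam (app mf n) (fun x => iteM (x ∈ α) (app s x) ∅)` shows `Img (app mf n) (app mf (suc n))`, against `card1`.
-/

namespace Pool.Agent.SplC

open FirstOrder FirstOrder.Language Pool.Agent.H55.SC Pool.Agent.H55.ZFU Pool.Agent.H55.Lav

variable {Q : Type} [Preorder Q] [OrderTop Q] {L : Type} [LinearOrder L] [WellFoundedLT L]

/-- A witness of a property in `N`. -/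
lemma wit_club {P : L → Prop} : ∀ᶠ N in club (Un Q), (∃ x, P x) → ∃ x, P x ∧ InT N x := by
  by_cases h : ∃ x, P x
  · obtain ⟨x, hx⟩ := h
    exact (club_inT x).mono (fun N hN _ => ⟨x, hx, hN⟩)
  · exact Filter.Eventually.of_forall (fun N h' => (h h').elim)

theorem ui_club {D : VDat L} (hV : VFrc Q D) : ∀ᶠ N in club (Un Q), ∀ (G : Set Q) [Env N G] [LEnv N L] [DEnv N D],
    ∃ cf jf mf : MM N G, UI (lv G (D.kN (N := N))) (ll G N L) cf jf mf := by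
  have w1 : ∀ᶠ N in club (Un Q), ∀ n : ℕ, ∀ δ : L, InT N δ → ∀ y : L, InT N y →
      (∃ x, x < D.mu (D.nL n) ∧ D.s (D.nL n) δ x = y) → ∃ x, (x < D.mu (D.nL n) ∧ D.s (D.nL n) δ x = y) ∧ InT N x :=
    club_all (fun n => diagT (fun δ => diagT (fun y => wit_club)))
  have w2 : ∀ᶠ N in club (Un Q), ∀ n : ℕ, ∀ x : L, InT N x → ∀ y : L, InT N y →
      (∃ z, z < D.mu (D.nL n) ∧ D.p (D.nL n) z = x ∧ D.q (D.nL n) z = y) →
        ∃ z, (z < D.mu (D.nL n) ∧ D.p (D.nL n) z = x ∧ D.q (D.nL n) z = y) ∧ InT N z :=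
    club_all (fun n => diagT (fun x => diagT (fun y => wit_club)))
  have w3 : ∀ᶠ N in club (Un Q), ∀ x : L, InT N x → ∀ y : L, InT N y →
      (∃ z, D.pL z = x ∧ D.qL z = y) → ∃ z, (D.pL z = x ∧ D.qL z = y) ∧ InT N z :=
    diagT (fun x => diagT (fun y => wit_club))
  filter_upwards [reg_club hV, card_club hV, pw_club hV, w1, w2, w3] with N hreg hcard hpw w1 w2 w3
  intro G _ _ _
  obtain ⟨cf, hcf⟩ := exists_fn2 (G := G) (F := fun a b => D.c a b) (DEnv.c (N := N) (D := D))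
  obtain ⟨jf, hjf⟩ := exists_fn4 (G := G) (F := fun a b c d => D.J a b c d) (DEnv.J (N := N) (D := D))
  obtain ⟨mf, hmf⟩ := exists_fn1 (G := G) (F := fun a => D.mu a) (DEnv.mu (N := N) (D := D))
  obtain ⟨sf, hsf⟩ := exists_fn4 (G := G) (F := fun a b c _ => D.s a b c) (DEnv.s (N := N) (D := D))
  obtain ⟨pf, hpf⟩ := exists_fn2 (G := G) (F := fun a b => D.p a b) (DEnv.p (N := N) (D := D))
  obtain ⟨qf, hqf⟩ := exists_fn2 (G := G) (F := fun a b => D.q a b) (DEnv.q (N := N) (D := D))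
  obtain ⟨pl, hpl⟩ := exists_fn1 (G := G) (F := fun a => D.pL a) (DEnv.pL (N := N) (D := D))
  obtain ⟨ql, hql⟩ := exists_fn1 (G := G) (F := fun a => D.qL a) (DEnv.qL (N := N) (D := D))
  have hc : ∀ a b : LN N L, Cn cf (lv G a) (lv G b) = lv G (D.cN a b) := hcf
  have hj : ∀ a b c d : LN N L, Jn jf (lv G a) (lv G b) (lv G c) (lv G d) =
      lv G ⟨D.J a.1 b.1 c.1 d.1, (DEnv.J (N := N) (D := D)).cl a.1 b.1 c.1 d.1 a.2 b.2 c.2 d.2⟩ := hjf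
  have hm : ∀ a : LN N L, app mf (lv G a) = lv G (D.muN a) := hmf
  have hk : ∀ i : LN N L, i < D.kN (N := N) ↔ i.1 < D.mu (D.nL 0) := fun i => Iff.rfl
  refine ⟨cf, jf, mf, ?_⟩
  refine
    { reg := hreg G
      ordl := ll_ord
      mu0 := ?_
      mu_mem := ?_
      mu_l := ?_
      mu_cof := ?_
      c_mem := ?_
      c0 := ?_
      j_mem := ?_
      j_c := ?_
      j_inj := ?_
      card1 := ?_
      card2 := ?_
      pn := ?_
      pl := ?_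
      pw := ?_ }
  · rw [← lv_zero (G := G) D, hm]; rfl
  · intro n hn
    obtain ⟨n, rfl⟩ := (mem_om D).1 hn
    rw [suc_nN, hm, hm, lv_lt]
    exact D.mu_lt n
  · intro n hn
    obtain ⟨n, rfl⟩ := (mem_om D).1 hn
    rw [hm]
    exact mem_ll.2 ⟨_, rfl⟩
  · intro x hx
    obtain ⟨i, rfl⟩ := mem_ll.1 hx
    obtain ⟨n, hn⟩ := D.mu_cof i.1
    refine ⟨_, (mem_om D).2 ⟨n, rfl⟩, ?_⟩
    rw [hm, lv_lt]
    exact hn
  · intro n b hn hb
    obtain ⟨n, rfl⟩ := (mem_om D).1 hn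
    obtain ⟨b, hb', rfl⟩ := mem_lv.1 hb
    rw [hc, lv_lt]
    exact D.c_lt _ _
  · intro b hb hob
    obtain ⟨b, hb', rfl⟩ := mem_lv.1 hb
    rw [← lv_zero (G := G) D, hc]
    have h1 : D.om ≤ b.1 := by
      by_contra h
      have h2 : b < D.omN (N := N) := not_le.1 h
      have h3 : lv G b ∈ (omega : MM N G) := by
        rw [omega_eq D, lv_lt]; exact h2
      exact not_mem_self _ (hob _ h3)
    have h2 := D.c0 b.1 h1 hb'
    intro x hx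
    obtain ⟨i, hi, rfl⟩ := mem_lv.1 hx
    rw [lv_lt]
    exact lt_of_lt_of_le hi h2
  · intro n b y f hn hb hy hf
    obtain ⟨n, rfl⟩ := (mem_om D).1 hn
    obtain ⟨b, hb', rfl⟩ := mem_lv.1 hb
    obtain ⟨y, hy', rfl⟩ := mem_lv.1 hy
    obtain ⟨f, hf', rfl⟩ := mem_lv.1 hf
    rw [hj, lv_lt]
    exact D.J_lt _ _ _ _
  · intro n b y f hn hb hy hf
    obtain ⟨n, rfl⟩ := (mem_om D).1 hn
    obtain ⟨b, hb', rfl⟩ := mem_lv.1 hb
    rw [suc_nN, hc] at hy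
    obtain ⟨y, hy', rfl⟩ := mem_lv.1 hy
    have hf2 : ∃ f' : LN N L, f'.1 ≤ y.1 ∧ f = lv G f' := by
      rcases mem_suc.1 hf with h | h
      · obtain ⟨f, hf', rfl⟩ := mem_lv.1 h
        exact ⟨f, le_of_lt hf', rfl⟩
      · exact ⟨y, le_rfl, h⟩
    obtain ⟨f, hf', rfl⟩ := hf2
    rw [hj, hc, lv_lt]
    exact D.J_c n b.1 y.1 f.1 hb' hy' hf'
  · intro n b y f f' hn hb hy hf hf' he
    obtain ⟨n, rfl⟩ := (mem_om D).1 hn
    obtain ⟨b, hb', rfl⟩ := mem_lv.1 hb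
    rw [suc_nN, hc] at hy
    obtain ⟨y, hy', rfl⟩ := mem_lv.1 hy
    have hf2 : ∀ f : MM N G, f ∈ suc (lv G y) → ∃ f' : LN N L, f'.1 ≤ y.1 ∧ f = lv G f' := by
      intro f hf
      rcases mem_suc.1 hf with h | h
      · obtain ⟨f, hf', rfl⟩ := mem_lv.1 h
        exact ⟨f, le_of_lt hf', rfl⟩
      · exact ⟨y, le_rfl, h⟩
    obtain ⟨f, hf1, rfl⟩ := hf2 _ hf
    obtain ⟨f', hf1', rfl⟩ := hf2 _ hf'
    rw [hj, hj] at he
    have h1 := congrArg Subtype.val (lv_inj he)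
    have h2 := D.J_inj n b.1 y.1 f.1 f'.1 hb' hy' hf1 hf1' h1
    rw [Subtype.ext h2]
  · intro n hn
    obtain ⟨n, rfl⟩ := (mem_om D).1 hn
    rw [suc_nN, hm, hm]
    exact hcard G n
  · intro n δ hn hδ
    obtain ⟨n, rfl⟩ := (mem_om D).1 hn
    rw [suc_nN, hm] at hδ
    obtain ⟨d, hd, rfl⟩ := mem_lv.1 hδ
    rw [hm]
    refine ⟨lam (lv G (D.muN (D.nN (N := N) n)))
      (fun x => app sf (opair (opair (lv G (D.nN (N := N) n)) (lv G d)) (opair x x))), ?_⟩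
    intro y hy
    obtain ⟨y, hy', rfl⟩ := mem_lv.1 hy
    obtain ⟨x, ⟨hx1, hx2⟩, hx3⟩ := w1 n d.1 d.2 y.1 y.2 (by
      obtain ⟨x, hx, hx'⟩ := D.s_sur n d.1 hd y.1 hy'
      exact ⟨x, hx, hx'⟩)
    have hx4 : lv G (⟨x, hx3⟩ : LN N L) ∈ lv G (D.muN (D.nN (N := N) n)) := lv_lt.2 hx1
    refine ⟨lv G ⟨x, hx3⟩, hx4, ?_⟩
    rw [app_lam hx4, hsf]
    congr 1
    exact Subtype.ext hx2
  · intro n hn
    obtain ⟨n, rfl⟩ := (mem_om D).1 hn
    rw [hm]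
    refine ⟨lam (lv G (D.muN (D.nN (N := N) n)))
      (fun x => opair (app pf (opair (lv G (D.nN (N := N) n)) x)) (app qf (opair (lv G (D.nN (N := N) n)) x))), ?_⟩
    intro y hy
    obtain ⟨a, ha, b, hb, rfl⟩ := mem_prod.1 hy
    obtain ⟨a, ha', rfl⟩ := mem_lv.1 ha
    obtain ⟨b, hb', rfl⟩ := mem_lv.1 hb
    obtain ⟨x, ⟨hx1, hx2, hx2'⟩, hx3⟩ := w2 n a.1 a.2 b.1 b.2 (by
      obtain ⟨x, hx, hx'⟩ := D.pq n a.1 b.1 ha' hb'
      exact ⟨x, hx, hx'⟩)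
    have hx4 : lv G (⟨x, hx3⟩ : LN N L) ∈ lv G (D.muN (D.nN (N := N) n)) := lv_lt.2 hx1
    refine ⟨lv G ⟨x, hx3⟩, hx4, ?_⟩
    rw [app_lam hx4, hpf, hqf]
    congr 1
    · congr 1
      exact Subtype.ext hx2
    · congr 1
      exact Subtype.ext hx2'
  · refine ⟨lam (ll G N L) (fun x => opair (app pl x) (app ql x)), ?_⟩
    intro y hy
    obtain ⟨a, ha, b, hb, rfl⟩ := mem_prod.1 hy
    obtain ⟨a, rfl⟩ := mem_ll.1 ha
    obtain ⟨b, rfl⟩ := mem_ll.1 hb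
    obtain ⟨x, ⟨hx2, hx2'⟩, hx3⟩ := w3 a.1 a.2 b.1 b.2 (D.pqL a.1 b.1)
    have hx4 : lv G (⟨x, hx3⟩ : LN N L) ∈ ll G N L := mem_ll.2 ⟨_, rfl⟩
    refine ⟨lv G ⟨x, hx3⟩, hx4, ?_⟩
    rw [app_lam hx4, hpl, hql]
    congr 1
    · congr 1
      exact Subtype.ext hx2
    · congr 1
      exact Subtype.ext hx2'
  · intro b hb
    obtain ⟨b, hb', rfl⟩ := mem_lv.1 hb
    obtain ⟨m, hm'⟩ := hpw G b hb'
    refine ⟨_, (mem_om D).2 ⟨m, rfl⟩, ?_⟩
    rw [hc]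
    exact hm'

theorem lcard {M : Type*} [Model M] [Pool.Agent.H55.ZFU.Pure M] {k l cf jf mf : M} (h : UI k l cf jf mf) :
    ∀ α, α ∈ l → ¬ Img α l := by
  rintro α hα ⟨s, hs⟩
  obtain ⟨n, hn, hαn⟩ := h.mu_cof α hα
  have hl : IsOrd l := h.ordl
  have hmn : IsOrd (app mf n) := hl.mem (h.mu_l n hn)
  apply h.card1 n hn
  refine ⟨lam (app mf n) (fun x => iteM (x ∈ α) (app s x) ∅), ?_⟩
  intro y hy
  have hyl : y ∈ l := hl.2.1 _ (h.mu_l _ (suc_mem_omega hn)) _ hy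
  obtain ⟨x, hx, hxy⟩ := hs y hyl
  have hxn : x ∈ app mf n := hmn.2.1 _ hαn _ hx
  refine ⟨x, hxn, ?_⟩
  rw [app_lam hxn, iteM_pos hx, hxy]

end Pool.Agent.SplC
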