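import Pool.Agent.SplC.F2
import Pool.Agent.SplC.I8
import Pool.Agent.SplC.T9

set_option autoImplicit false
set_option linter.all false
universe u

/-!
# F3 (3): the splitting number of `k` is `l`

`F₀` from `upper hU` (I8), `F = sep F₀ (fun x => Unb k x)`. `splitting_fam`: `large_iff`, `splitsAt_iff`; a set `x ⊆ k` with `Spl k x A` is unbounded. `Img l F` (from `Img l F₀`, since `F ⊆ F₀`).
`no_small`: if `IsSplittingFamily F'` and `Img δ F'`, `δ ∈ l`: `hns` gives `A` with `Unb k A`, not split by any member of `F'`, contradiction (`large_iff`, `splitsAt_iff`).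
Bijection `l → F`: injection `F → l`: `y ↦ mu (fun x => x ∈ l ∧ app s x = y)` (`mu_spec`; elements of `l` are ordinals). Injection `l → F`: `θ, e` from `wellorder F`; `θ ∉ l` (otherwise `Img θ F`, `no_small`), so `l ⊆ θ` (`ord_not_mem`), use `e`. `csb` (`F1`).
`IsCard l`: `isOrdinal_iff`, `lcard` (T9), `surj_img`. `IsSingular l`: `α = omega` (`omega ∈ k ∈ l`: `k = app mf ∅ ∈ l` by `mu0`, `mu_l`, `hU.ordl` transitive), `f = lam omega (fun n => app mf n)`, `mu_l`, `mu_cof`. `IsRegularUncountable`: `card_reg`, `hU.reg`, `isFun_iff`, `rel_iff`. `IsOmega`: `omega_iff`.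
-/

namespace Pool.Agent.SplC

open Pool.Agent.H55.SC Pool.Agent.H55.CS Pool.Agent.H55.ZFU

variable {M : Type u} [Model M] [Pool.Agent.H55.ZFU.Pure M] [Choice M]

theorem final_int {k l cf jf mf : M} (hU : UI k l cf jf mf)
    (hns : ∀ δ F : M, δ ∈ l → Img δ F → ∃ A, Unb k A ∧ ∀ x, x ∈ F → ¬ Spl k x A) :
    IsOmega Model.E (omega : M) ∧ IsRegularUncountable Model.E (omega : M) k ∧ IsSingular Model.E l ∧ Model.E k l ∧
      IsSplittingNumber Model.E k l := by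
  have hk := hU.reg
  have hkl : k ∈ l := by
    have := hU.mu_l ∅ empty_mem_omega
    rwa [hU.mu0] at this
  have hcard : IsCard Model.E l :=
    ⟨isOrdinal_iff.2 hU.ordl, fun α f hα hs => lcard hU α hα (surj_img hs)⟩
  have hnosmall : ∀ F' δ f : M, IsSplittingFamily Model.E k F' → δ ∈ l → ¬ IsSurj Model.E f δ F' := by
    intro F' δ f hF' hδ hs
    obtain ⟨A, hA, hA'⟩ := hns δ F' hδ (surj_img hs)
    obtain ⟨x, hx, hxs⟩ := hF'.2 A ((large_iff hk).2 hA)
    exact hA' x hx ((splitsAt_iff hk hA.1).1 hxs)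
  refine ⟨omega_iff.2 rfl, ⟨card_reg hk, hk.om, ?_⟩, ⟨hcard, omega, lam omega (fun n : M => app mf n), ?_, ?_, ?_⟩,
    hkl, hcard, ?_, hnosmall⟩
  · intro α f hα hf
    obtain ⟨h1, h2⟩ := isFun_iff.1 hf
    obtain ⟨β, hβ, hβ'⟩ := hk.bdd α f hα h2
    refine ⟨β, hβ, fun x y hx hxy => ?_⟩
    have h3 : app f x = y := h1.app_eq (rel_iff.1 hxy)
    have h4 := hβ' x hx
    rw [h3] at h4
    exact h4
  · exact hU.ordl.sub hkl _ hk.om
  · have i1 : Fn1 (fun n : M => app mf n) := inferInstance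
    refine isFun_iff.2 ⟨lam_fnOn _ _, fun x hx => ?_⟩
    rw [app_lam hx]
    exact hU.mu_l x hx
  · intro z hz
    have i1 : Fn1 (fun n : M => app mf n) := inferInstance
    obtain ⟨n, hn, hn'⟩ := hU.mu_cof z hz
    exact ⟨n, app mf n, hn, rel_iff.2 (mem_lam.2 ⟨n, hn, rfl⟩), hn'⟩
  · obtain ⟨F₀, hF1, hF2, hF3⟩ := upper hU
    have i1 : Dfn1 (fun x : M => Unb k x) := inferInstance
    obtain ⟨F, hF⟩ : ∃ F : M, F = sep F₀ (fun x => Unb k x) := ⟨_, rfl⟩
    have hmem : ∀ x, x ∈ F ↔ x ∈ F₀ ∧ Unb k x := fun x => by rw [hF, mem_sep]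
    have hsplit : IsSplittingFamily Model.E k F := by
      refine ⟨fun x hx => (large_iff hk).2 ((hmem x).1 hx).2, fun a ha => ?_⟩
      have ha' := (large_iff hk).1 ha
      obtain ⟨x, hx, hs⟩ := hF3 a ha'
      refine ⟨x, (hmem x).2 ⟨hx, hF1 x hx, fun γ hγ => ?_⟩, (splitsAt_iff hk ha'.1).2 hs⟩
      obtain ⟨b, _, hb, hb'⟩ := hs.1 γ hγ
      exact ⟨b, hb, hb'⟩
    have hImg : ∃ s : M, ∀ y, y ∈ F → ∃ x, x ∈ l ∧ app s x = y := by
      obtain ⟨s, hs⟩ := hF2
      exact ⟨s, fun y hy => hs y ((hmem y).1 hy).1⟩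
    obtain ⟨s, hs⟩ := hImg
    obtain ⟨θ, e, hθ, _, he1, he2, he3⟩ := wellorder F
    have hlθ : l ⊆ θ := by
      apply ord_not_mem hθ hU.ordl
      intro hθl
      obtain ⟨A, hA, hA'⟩ := hns θ F hθl ⟨e, fun y hy => he3 y hy⟩
      obtain ⟨x, hx, hxs⟩ := hsplit.2 A ((large_iff hk).2 hA)
      exact hA' x hx ((splitsAt_iff hk hA.1).1 hxs)
    have i2 : Fn1 (fun y : M => mu (fun x : M => x ∈ l ∧ app s x = y)) := inferInstance
    have hg : ∀ y, y ∈ F → mu (fun x : M => x ∈ l ∧ app s x = y) ∈ l ∧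
        app s (mu (fun x : M => x ∈ l ∧ app s x = y)) = y := by
      intro y hy
      have i3 : Dfn1 (fun x : M => x ∈ l ∧ app s x = y) := inferInstance
      obtain ⟨x, hx, hx'⟩ := hs y hy
      exact (mu_spec (fun x : M => x ∈ l ∧ app s x = y) ⟨x, hU.ordl.mem hx, hx, hx'⟩).2.1
    obtain ⟨h, hh⟩ := csb (a := l) (b := F) (f := e)
      (g := lam F (fun y : M => mu (fun x : M => x ∈ l ∧ app s x = y)))
      (fun x hx => he1 x (hlθ x hx)) (fun x x' hx hx' hxx => he2 x x' (hlθ x hx) (hlθ x' hx') hxx)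
      (fun y hy => by rw [app_lam hy]; exact (hg y hy).1)
      (fun y y' hy hy' hyy => by
        rw [app_lam hy, app_lam hy'] at hyy
        rw [← (hg y hy).2, hyy, (hg y' hy').2])
    exact ⟨F, h, hsplit, hh⟩

end Pool.Agent.SplC
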