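import Pool.Agent.SplC.TDefs

set_option autoImplicit false
set_option linter.all false

/-!
# T1 (3): the closure properties hold for almost all `N`

`ck_inj`: the value `val univ {⊤}` of `ck Q i` satisfies `mem_ck` (Lav/ZFM2; for `N = univ`, `G = {⊤}` the condition `InN N (ck Q j)` is trivial): if `i < j` and `ck Q i = ck Q j` then
`val .. (ck Q i) ∈ val .. (ck Q j) = val .. (ck Q i)`, against `ZFSet.mem_irrefl`.
`lenv_club`: as `ook_club`, `dok_club`, `iok_club`, `fnOk_club` of Lav/MLev, Lav/MLev2 (`diagT`, `diagN`, `diagNs`, `club_all`, `club_inT`, `club_inN`); for `ckw`: by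
`diagN (fun ρ => ..)` for all `ρ ∈ N`, `∀ i, ck Q i = ρ → InT N i` (by `ck_inj` there is at most one such `i`). `f4Ok_club` in the same way (`pr`: `diagT`), `denv_club` from it.
-/

namespace Pool.Agent.SplC

open FirstOrder FirstOrder.Language Pool.Agent.H55.SC Pool.Agent.H55.ZFU Pool.Agent.H55.Lav

variable {Q : Type} [Preorder Q] [OrderTop Q] {L : Type} [LinearOrder L] [WellFoundedLT L]

theorem ck_inj {i j : L} (h : ck Q i = ck Q j) : i = j := by
  have key : ∀ i j : L, i < j → ck Q i ≠ ck Q j := by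
    intro i j hij h
    have h1 : val (Set.univ : Set (Un Q)) ({⊤} : Set Q) (ck Q i) ∈ val (Set.univ : Set (Un Q)) ({⊤} : Set Q) (ck Q j) :=
      (mem_ck (Set.mem_singleton _)).mpr ⟨i, hij, Set.mem_univ _, rfl⟩
    rw [← h] at h1
    exact ZFSet.mem_irrefl _ h1
  rcases lt_trichotomy i j with h1 | h1 | h1
  · exact (key i j h1 h).elim
  · exact h1
  · exact (key j i h1 h.symm).elim

theorem lenv_club : ∀ᶠ N in club (Un Q), LEnv N L := by
  have h1 : ∀ᶠ N in club (Un Q), ∀ i : L, InT N i → InN N (ck Q i) := diagT (fun i => club_inN _)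
  have h2 : ∀ᶠ N in club (Un Q), ∀ ρ : Nm Q, InN N ρ → ∀ i : L, ck Q i = ρ → InT N i := by
    refine diagN (fun ρ => ?_)
    by_cases h : ∃ i : L, ck Q i = ρ
    · obtain ⟨i, hi⟩ := h
      refine (club_inT i).mono (fun N hN j hj => ?_)
      rw [ck_inj (hj.trans hi.symm)]
      exact hN
    · exact Filter.Eventually.of_forall (fun N j hj => (h ⟨j, hj⟩).elim)
  have h3 : ∀ᶠ N in club (Un Q), ∀ S : L → L → Set Q, InT N S → ∀ i : L, InT N i → InT N (S i) :=
    diagT (fun S => diagT (fun i => club_inT _))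
  have h4 : ∀ᶠ N in club (Un Q), ∀ m : ℕ, ∀ ψ : Fml (m + 2), ∀ σ : Fin m → Nm Q, (∀ i, InN N (σ i)) →
      InT N (fun (i : L) (j : L) => {q : Q | frc ψ (Fin.append σ ![ck Q i, ck Q j]) q}) :=
    club_all (fun m => club_all (fun ψ => diagNs (fun σ => club_inT _)))
  have h5 : ∀ᶠ N in club (Un Q), ∀ m : ℕ, ∀ ψ : Fml (m + 1), ∀ σ : Fin m → Nm Q, (∀ i, InN N (σ i)) →
      InT N (fun (i : L) => {q : Q | frc ψ (Fin.append σ (fun _ => ck Q i)) q}) :=
    club_all (fun m => club_all (fun ψ => diagNs (fun σ => club_inT _)))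
  have h6 : ∀ᶠ N in club (Un Q), ∀ A : L → Set Q, InT N A → InN N (sbN A) := diagT (fun A => club_inN _)
  have h7 : ∀ᶠ N in club (Un Q), ∀ z : L → L → Set Q, InT N z → FnOk N (fun i : L => opN (ck Q i) (sbN (z i))) :=
    diagT (fun z => fnOk_club _)
  filter_upwards [h1, h2, h3, h4, h5, h6, h7, club_inN (ckT Q L), iok_club (Q := Q) L] with N h1 h2 h3 h4 h5 h6 h7 h8 h9
  exact ⟨h1, fun i hi => h2 _ hi i rfl, h8, h9, h3, fun {m} ψ σ h => h4 m ψ σ h, fun {m} ψ σ h => h5 m ψ σ h, h6, h7⟩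

theorem f4Ok_club (F : L → L → L → L → L) : ∀ᶠ N in club (Un Q), F4Ok N F := by
  have h1 : ∀ᶠ N in club (Un Q), ∀ a : L, InT N a → ∀ b : L, InT N b → ∀ c : L, InT N c → ∀ d : L, InT N d →
      InT N (F a b c d) := diagT (fun a => diagT (fun b => diagT (fun c => diagT (fun d => club_inT _))))
  have h2 : ∀ᶠ N in club (Un Q), ∀ a : L, InT N a → ∀ b : L, InT N b → ∀ c : L, InT N c → ∀ d : L, InT N d →
      InT N (a, b, c, d) := diagT (fun a => diagT (fun b => diagT (fun c => diagT (fun d => club_inT _))))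
  have h3 : ∀ᶠ N in club (Un Q), ∀ x : L × L × L × L, InT N x →
      InT N x.1 ∧ InT N x.2.1 ∧ InT N x.2.2.1 ∧ InT N x.2.2.2 :=
    diagT (fun x => (club_inT x.1).and ((club_inT x.2.1).and ((club_inT x.2.2.1).and (club_inT x.2.2.2))))
  filter_upwards [h1, h2, h3, fnOk_club (f4N (Q := Q) F)] with N h1 h2 h3 h4
  exact ⟨fun a b c d ha hb hc hd => h1 a ha b hb c hc d hd, fun a b c d ha hb hc hd => h2 a ha b hb c hc d hd, h3, h4⟩

theorem denv_club (D : VDat L) : ∀ᶠ N in club (Un Q), DEnv N D := by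
  have h1 : ∀ᶠ N in club (Un Q), ∀ n : ℕ, InT N (D.nL n) := club_all (fun n => club_inT _)
  filter_upwards [h1, club_inT D.om, f4Ok_club (Q := Q) (fun a _ _ _ => D.mu a),
    f4Ok_club (Q := Q) (fun a b _ _ => D.c a b), f4Ok_club (Q := Q) (fun a b c d => D.J a b c d),
    f4Ok_club (Q := Q) (fun a b c _ => D.s a b c), f4Ok_club (Q := Q) (fun a b _ _ => D.p a b),
    f4Ok_club (Q := Q) (fun a b _ _ => D.q a b), f4Ok_club (Q := Q) (fun a _ _ _ => D.pL a),
    f4Ok_club (Q := Q) (fun a _ _ _ => D.qL a)] with N h1 h2 h3 h4 h5 h6 h7 h8 h9 h10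
  exact ⟨h1, h2, h3, h4, h5, h6, h7, h8, h9, h10⟩

end Pool.Agent.SplC
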