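import Pool.Agent.SplC.V1

set_option autoImplicit false
set_option linter.all false

/-!
# Module V4 (embedding of K, preservation of cardinals) difficulty 2

* `exists_e`: K is wellordered (hK.wf) and all proper initial segments have size < #K (hK.seg), so its order type is (#K).ord (`Ordinal.type` of `<` on K is ≤ (#K).ord because each initial
  segment has type < (#K).ord by `Cardinal.lt_ord`, and ≥ by `Cardinal.ord_le_type`). For a : K let e a := the x : L with o x = typein (<) a (< (#K).ord = (pl #K 0).ord; `lord_elt`, `lord_le`). Strictly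
  monotone by `lord_lt`. If o x < (#K).ord then o x = typein (<) a for some a (`Ordinal.typein_surj`), so x = e a (o injective). `(typein (<) a).card = #(Iio a)` (`Ordinal.card_typein` or similar).
* `vfrc_cd`: for i < μ let T i := {j < μ' | ∃ q, BelQ (S i j) q ∧ ∀ j' < μ', j' ≠ j → IncQ (S i j') q}. For j ∈ T i choose such a q j. If j ≠ j' in T i and r ≤ q j, r ≤ q j' then BelQ (S i j') r (below q j')
  contradicts IncQ (S i j') (q j). So q is injective on T i and its range is an antichain: `#(T i) ≤ κ` (hcc). So `#(⋃ i < μ, T i) ≤ #(Iio μ) * κ = pl κ n * κ = pl κ n` (κ infinite, κ ≤ pl κ n) `< pl κ (n+1) = #(Iio μ')`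
  (`lord_card`, `Cardinal.card_ord`, `Cardinal.mk_iUnion_le` / `Cardinal.mk_iUnion_le_sum_mk`). Take j ∈ Iio μ' outside the union.
-/

namespace Pool.Agent.SplC

open Cardinal Pool.Agent.SplK Pool.Agent.H55.Lav

theorem exists_e {K : Type} [LinearOrder K] (hK : Inac K) {L : Type} [LinearOrder L] {o : L → Ordinal.{0}}
    (h : LOrd L o #K) : ∃ e : K → L, StrictMono e ∧ (∀ x, (∃ a, e a = x) ↔ o x < (#K).ord) ∧
      ∀ a, (o (e a)).card = #(Set.Iio a) := by
  haveI := hK.wf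
  have hcard : ∀ a : K, (Ordinal.typein (α := K) (· < ·) a).card = #(Set.Iio a) := fun a =>
    Ordinal.card_typein (r := ((· < ·) : K → K → Prop)) a
  have hlt : ∀ a : K, Ordinal.typein (α := K) (· < ·) a < (#K).ord := by
    intro a
    rw [Cardinal.lt_ord, hcard a]
    exact hK.seg a
  obtain ⟨x0, hx0⟩ := lord_elt h (c := #K) (n := 0) le_rfl
  have hex : ∀ a : K, ∃ y, o y = Ordinal.typein (α := K) (· < ·) a := fun a =>
    lord_le h (x := x0) (by rw [hx0]; exact (hlt a).le)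
  choose e he using hex
  refine ⟨e, ?_, ?_, ?_⟩
  · intro a b hab
    rw [← lord_lt h, he, he]
    exact (Ordinal.typein_lt_typein (α := K) (· < ·)).2 hab
  · intro x
    constructor
    · rintro ⟨a, rfl⟩
      rw [he]
      exact hlt a
    · intro hx
      obtain ⟨a, ha⟩ := Ordinal.typein_surj (α := K) (· < ·) (hx.trans_le (Cardinal.ord_le_type (α := K) (· < ·)))
      refine ⟨a, h.mono.injective ?_⟩
      rw [he, ha]
  · intro a
    rw [he, hcard a]

theorem v4_le_pl (κ : Cardinal.{0}) (n : ℕ) : κ ≤ pl κ n := by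
  induction n with
  | zero => exact le_rfl
  | succ n ih =>
    rw [pl_succ]
    exact ih.trans (Order.le_succ _)

theorem v4_small {L : Type} [LinearOrder L] {κ : Cardinal.{0}}
    {Q : Type} [Preorder Q] (hcc : ∀ S : Set Q, (∀ p ∈ S, ∀ q ∈ S, p ≠ q → ∀ r, r ≤ p → ¬ r ≤ q) → #S ≤ κ)
    {μ' : L} (S : L → Set Q) :
    #{j : L | j < μ' ∧ ∃ q, BelQ (S j) q ∧ ∀ j' < μ', j' ≠ j → IncQ (S j') q} ≤ κ := by
  have hex : ∀ j : {j : L | j < μ' ∧ ∃ q, BelQ (S j) q ∧ ∀ j' < μ', j' ≠ j → IncQ (S j') q},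
      ∃ q, BelQ (S j.1) q ∧ ∀ j' < μ', j' ≠ j.1 → IncQ (S j') q := fun j => j.2.2
  choose g hg using hex
  have key : ∀ j j' : {j : L | j < μ' ∧ ∃ q, BelQ (S j) q ∧ ∀ j' < μ', j' ≠ j → IncQ (S j') q}, j ≠ j' →
      ∀ r, r ≤ g j → ¬ r ≤ g j' := by
    intro j j' hne r h1 h2
    obtain ⟨C, hC, hC'⟩ := (hg j).1
    exact (hg j').2 j.1 j.2.1 (fun e => hne (Subtype.ext e)) r h2 ⟨C, hC, h1.trans hC'⟩
  have hinj : Function.Injective g := by
    intro j j' hjj
    by_contra hne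
    exact key j j' hne (g j) le_rfl (le_of_eq hjj)
  rw [← mk_range_eq g hinj]
  apply hcc
  rintro _ ⟨j, rfl⟩ _ ⟨j', rfl⟩ hne r h1 h2
  exact key j j' (fun e => hne (congrArg g e)) r h1 h2

theorem vfrc_cd {L : Type} [LinearOrder L] {o : L → Ordinal.{0}} {κ : Cardinal.{0}} (h : LOrd L o κ) (hκ : ℵ₀ ≤ κ)
    {Q : Type} [Preorder Q] (hcc : ∀ S : Set Q, (∀ p ∈ S, ∀ q ∈ S, p ≠ q → ∀ r, r ≤ p → ¬ r ≤ q) → #S ≤ κ)
    {μ μ' : L} {n : ℕ} (hμ : o μ = (pl κ n).ord) (hμ' : o μ' = (pl κ (n + 1)).ord) (S : L → L → Set Q) :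
    ∃ j < μ', CdP μ μ' S j := by
  have hc1 : #(Set.Iio μ) = pl κ n := by rw [lord_card h, hμ, Cardinal.card_ord]
  have hc2 : #(Set.Iio μ') = pl κ (n + 1) := by rw [lord_card h, hμ', Cardinal.card_ord]
  have hU : #(⋃ i : Set.Iio μ, {j : L | j < μ' ∧ ∃ q, BelQ (S i.1 j) q ∧ ∀ j' < μ', j' ≠ j → IncQ (S i.1 j') q} : Set L) ≤
      pl κ n := by
    refine (mk_iUnion_le _).trans ?_
    have h1 : (⨆ i : Set.Iio μ, #{j : L | j < μ' ∧ ∃ q, BelQ (S i.1 j) q ∧ ∀ j' < μ', j' ≠ j → IncQ (S i.1 j') q}) ≤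
        pl κ n := ciSup_le' (fun i => (v4_small hcc (S i.1)).trans (v4_le_pl κ n))
    rw [hc1]
    exact (mul_le_mul' le_rfl h1).trans (mul_eq_self (hκ.trans (v4_le_pl κ n))).le
  by_contra hno
  push Not at hno
  have hsub : Set.Iio μ' ⊆
      (⋃ i : Set.Iio μ, {j : L | j < μ' ∧ ∃ q, BelQ (S i.1 j) q ∧ ∀ j' < μ', j' ≠ j → IncQ (S i.1 j') q} : Set L) := by
    intro j hj
    have h1 := hno j hj
    unfold CdP at h1
    push Not at h1
    obtain ⟨i, hi, q, hq1, hq2⟩ := h1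
    exact Set.mem_iUnion.2 ⟨⟨i, hi⟩, hj, q, hq1, hq2⟩
  have h2 := (mk_le_mk_of_subset hsub).trans hU
  rw [hc2, pl_succ] at h2
  exact absurd h2 (not_le.2 (Order.lt_succ _))

end Pool.Agent.SplC
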