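import Pool.Agent.SplC.V3
import Pool.Agent.SplC.V4
import Pool.Agent.SplC.V5

set_option autoImplicit false
set_option linter.all false

/-!
# The forcing facts on one wellordered type
-/

namespace Pool.Agent.SplC

open Cardinal Pool.Agent.SplK Pool.Agent.H55.Lav

theorem exists_vfrc {K : Type} [LinearOrder K] (h : Inac K) {Q : Type} [Preorder Q] [OrderTop Q] (hQ : KFrc Q K) :
    ∃ (L : Type) (_ : LinearOrder L) (_ : WellFoundedLT L) (D : VDat L), VFrc Q D := by
  obtain ⟨L, i1, i2, o, hL⟩ := exists_lord #K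
  have hlim : ∀ x < #K, 2 ^ x < #K := by
    intro x hx
    obtain ⟨S, hS⟩ := (Cardinal.le_mk_iff_exists_set (c := x)).mp hx.le
    obtain ⟨b, hb⟩ := h.reg S (by rw [hS]; exact hx)
    have h1 : x ≤ #(Set.Iio b) := by
      rw [← hS]
      exact Cardinal.mk_le_mk_of_subset (fun a ha => hb a ha)
    exact (Cardinal.power_le_power_left two_ne_zero h1).trans_lt (h.lim b)
  obtain ⟨D, hD⟩ := exists_vdat hL h.unc hlim
  obtain ⟨e, he, hr, hc⟩ := exists_e h hL
  have hk : ∀ x, o x < (#K).ord ↔ x < D.k := by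
    intro x
    rw [← lord_lt hL]
    have := hD.mu 0
    rw [pl_zero] at this
    rw [show D.k = D.mu (D.nL 0) from rfl, this]
  have hr' : ∀ x, (∃ a, e a = x) ↔ x < D.k := fun x => (hr x).trans (hk x)
  refine ⟨L, i1, i2, D, ⟨fun b f p hb => vfrc_reg hQ he hr' b f p hb, fun n S => ?_, fun δ x p => ?_, fun b p hb => ?_⟩⟩
  · exact vfrc_cd hL h.unc.le hQ.cc (hD.mu n) (hD.mu (n + 1)) S
  · obtain ⟨n, hn⟩ := lord_n hL δ
    exact vfrc_ns hQ he hr' δ n (by rw [lord_card hL]; exact (Cardinal.lt_ord.mp hn).le) x p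
  · refine vfrc_pw hQ he hr' D (fun n a => ?_) b hb p
    rw [lord_card hL, hD.c n (e a) ((hr' _).mp ⟨a, rfl⟩), Cardinal.card_ord, hc]

end Pool.Agent.SplC
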