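import Pool.Agent.SplC.I1

set_option autoImplicit false
set_option linter.all false
universe u

/-!
# I2: the least function which is not bounded on `A`
-/

namespace Pool.Agent.SplC

open Pool.Agent.H55.ZFU

variable {M : Type u} [Model M] [Pure M] [Choice M]

omit [Pure M] [Choice M] in
theorem i2_above {k A γ β : M} (hk : Reg k) (hA : Unb k A) (hγ : γ ∈ k) (hβ : β ∈ k) :
    ∃ a, a ∈ A ∧ γ ∈ a ∧ β ∈ a := by
  rcases ord_tri γ (hk.ord.mem hγ) β (hk.ord.mem hβ) with h | h | h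
  · obtain ⟨a, ha, hβa⟩ := hA.2 β hβ
    exact ⟨a, ha, (hk.ord.mem (hA.1 a ha)).2.1 β hβa γ h, hβa⟩
  · subst h
    obtain ⟨a, ha, hβa⟩ := hA.2 γ hγ
    exact ⟨a, ha, hβa, hβa⟩
  · obtain ⟨a, ha, hγa⟩ := hA.2 γ hγ
    exact ⟨a, ha, hγa, (hk.ord.mem (hA.1 a ha)).2.1 γ hγa β h⟩

/-- functions of `Φ` which are not bounded on `A` -/
def i2_Good (k Φ A g : M) : Prop := g ∈ Φ ∧ ∀ β, β ∈ k → ¬ Ev k A (fun a => app g a ∈ β)

omit [Pure M] [Choice M] in
theorem i2_good_dfn {ι : Type} (t s r q : (ι → M) → M) [DFun t] [DFun s] [DFun r] [DFun q] :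
    Dfn (fun v => i2_Good (t v) (s v) (r v) (q v)) := by
  refine Dfn.comp4 (P := fun a b c d : M => i2_Good a b c d) ?_ t s r q
  unfold i2_Good
  infer_instance

theorem exists_g {k l cf jf Φ mb z X A : M} (hk : Reg k) (hC : Clo k l cf jf Φ mb z X)
    (hD : Dcd k Φ A) : ∃ g, Gl k Φ A g := by
  by_contra hcon
  have ig := @i2_good_dfn M _
  -- the identity
  obtain ⟨f0, hf0, hf0'⟩ := hC.idn
  have hgood0 : i2_Good k Φ A f0 := by
    refine ⟨hf0, ?_⟩
    rintro β hβ ⟨γ, hγ, h⟩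
    obtain ⟨a, ha, hγa, hβa⟩ := i2_above hk hD.unb hγ hβ
    have h1 : app f0 a ∈ β := h a ha hγa
    rw [hf0' a (hD.unb.1 a ha)] at h1
    exact not_mem_mem h1 hβa
  -- descent
  have hstep : ∀ g, i2_Good k Φ A g → ∃ f, i2_Good k Φ A f ∧ Ev k A (fun a => app f a ∈ app g a) := by
    intro g hg
    by_contra hno
    apply hcon
    refine ⟨g, hg.1, hg.2, ?_⟩
    intro f hf hE
    by_contra hb
    push Not at hb
    exact hno ⟨f, ⟨hf, hb⟩, hE⟩
  obtain ⟨θ, e, hθ, _, _, _, he⟩ := wellorder Φ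
  obtain ⟨s, hs⟩ : ∃ s : M → M, s = fun g => pick θ e (fun f => i2_Good k Φ A f ∧
    Ev k A (fun a => app f a ∈ app g a)) := ⟨_, rfl⟩
  have iS : Fn1 s := by
    rw [hs]; infer_instance
  have iS' : ∀ {ι : Type} (t : (ι → M) → M) [DFun t], DFun (fun v => s (t v)) := fun t => DFun.comp1 iS t
  have hspec : ∀ g, i2_Good k Φ A g → i2_Good k Φ A (s g) ∧ Ev k A (fun a => app (s g) a ∈ app g a) := by
    intro g hg
    obtain ⟨f, hf, hfE⟩ := hstep g hg
    obtain ⟨i, hi, hi'⟩ := he f hf.1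
    have := pick_spec hθ (f := e) (fun f => i2_Good k Φ A f ∧ Ev k A (fun a => app f a ∈ app g a))
      ⟨i, hi, by rw [hi']; exact ⟨hf, hfE⟩⟩
    rw [hs]
    exact this
  obtain ⟨u, hu, hu0, hus⟩ := omega_rec f0 (fun _ y => s y)
  have hgood : ∀ n, n ∈ (omega : M) → i2_Good k Φ A (app u n) := by
    refine omega_induction (fun n : M => i2_Good k Φ A (app u n)) ?_ ?_
    · rw [hu0]; exact hgood0
    · intro n hn ih
      rw [hus n hn]
      exact (hspec _ ih).1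
  have hEv : Ev k A (fun a => ∀ n, n ∈ (omega : M) → app (app u (suc n)) a ∈ app (app u n) a) := by
    refine ev_all hk hD.unb.1 (fun n a : M => app (app u (suc n)) a ∈ app (app u n) a) hk.om ?_
    intro n hn
    have := (hspec _ (hgood n hn)).2
    rw [← hus n hn] at this
    exact this
  obtain ⟨γ, hγ, h⟩ := hEv
  obtain ⟨a, ha, hγa⟩ := hD.unb.2 γ hγ
  have h1 : ∀ n, n ∈ (omega : M) → app (app u (suc n)) a ∈ app (app u n) a := h a ha hγa
  have h0 : app (app u ∅) a ∈ img (omega : M) (fun n => app (app u n) a) := by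
    rw [mem_img]; exact ⟨∅, by simp, rfl⟩
  obtain ⟨x, hx, hx'⟩ := foundation h0
  rw [mem_img] at hx
  obtain ⟨n, hn, rfl⟩ := hx
  apply hx' _ (h1 n hn)
  rw [mem_img]
  exact ⟨suc n, suc_mem_omega hn, rfl⟩

end Pool.Agent.SplC
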