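import Pool.Agent.SplC.TDefs

set_option autoImplicit false
set_option linter.all false

/-!
# T2 (2): the ordinals `lv G i` of the model

`mem_ee` (`x ∈ y ↔ EE x y`, by definition), `EE x y ↔ x.1 ∈ y.1`. `mem_lv` from `mem_ck` (Lav/ZFM2) with `LEnv.ckw`; `mem_ll` from `mem_ckT`; `htop : ⊤ ∈ G` is `top_mem Env.ok Env.gen`.
`lv_lt`: as `ov_lt` (Lav/MLev): `→`: if `¬ i < j` then `j ≤ i`; `j = i`: `ee_irrefl`, `j < i`: `ee_asymm`. `lv_ord`, `ll_ord`: `IsOrd` = `IsSet` (instance `pure_isSet`), `Trans`, and elements `Trans`.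
`omega_eq`: `x ∈ omega ↔ ∃ n, x = lv G (D.nN n)`: `→` `omega_induction`-like: the set `lv G D.omN` is `Inductive'` (`mem_omega`); `←` induction on `n` with `suc_nN`. `suc_nN`: `mem_suc`, `mem_lv`; elements of `L` below
`D.nL (n + 1)` are below `D.om` (`D.om_iff`, `lt_trans`), hence `D.nL m` with `m < n + 1` (`D.nL_lt` is strict monotonicity). Then `omega = lv G D.omN` by `ZFU.ext`.
-/

namespace Pool.Agent.SplC

open FirstOrder FirstOrder.Language Pool.Agent.H55.SC Pool.Agent.H55.ZFU Pool.Agent.H55.Lav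

variable {Q : Type} [Preorder Q] [OrderTop Q] {L : Type} [LinearOrder L] [WellFoundedLT L]
variable {N : Set (Un Q)} {G : Set Q} [Env N G] [LEnv N L]

theorem mem_ll {x : MM N G} : x ∈ ll G N L ↔ ∃ i : LN N L, x = lv G i := by
  have htop : (⊤ : Q) ∈ G := top_mem (Env.ok (N := N) (G := G)) (Env.gen (N := N) (G := G))
  refine (mem_ckT htop).trans ⟨?_, ?_⟩
  · rintro ⟨j, h1, h3⟩
    exact ⟨⟨j, LEnv.ckw j h1⟩, Subtype.ext h3.symm⟩
  · rintro ⟨j, rfl⟩
    exact ⟨j.1, LEnv.ckn j.1 j.2, rfl⟩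

theorem mem_lv {x : MM N G} {i : LN N L} : x ∈ lv G i ↔ ∃ j : LN N L, j < i ∧ x = lv G j := by
  have htop : (⊤ : Q) ∈ G := top_mem (Env.ok (N := N) (G := G)) (Env.gen (N := N) (G := G))
  refine (mem_ck htop).trans ⟨?_, ?_⟩
  · rintro ⟨j, h1, h2, h3⟩
    exact ⟨⟨j, LEnv.ckw j h2⟩, h1, Subtype.ext h3.symm⟩
  · rintro ⟨j, h1, rfl⟩
    exact ⟨j.1, h1, LEnv.ckn j.1 j.2, rfl⟩

theorem lv_lt {i j : LN N L} : lv G i ∈ lv G j ↔ i < j := by
  have key : ∀ i j : LN N L, i < j → lv G i ∈ lv G j := fun i j h => mem_lv.mpr ⟨i, h, rfl⟩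
  constructor
  · intro h
    by_contra h'
    rcases (not_lt.mp h').eq_or_lt with h1 | h1
    · rw [h1] at h
      exact ee_irrefl _ h
    · exact ee_asymm h (key _ _ h1)
  · exact key i j

theorem lv_inj {i j : LN N L} (h : lv G i = lv G j) : i = j := by
  rcases lt_trichotomy i j with h1 | h1 | h1
  · have h2 := (lv_lt (G := G)).mpr h1
    rw [h] at h2
    exact (ee_irrefl _ h2).elim
  · exact h1
  · have h2 := (lv_lt (G := G)).mpr h1
    rw [h] at h2
    exact (ee_irrefl _ h2).elim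

theorem lv_ord (i : LN N L) : IsOrd (lv G i) := by
  have key : ∀ i : LN N L, Trans (lv G i) := by
    intro i x hx y hy
    obtain ⟨j, hj, rfl⟩ := mem_lv.mp hx
    obtain ⟨k, hk, rfl⟩ := mem_lv.mp hy
    exact lv_lt.mpr (hk.trans hj)
  refine ⟨inferInstance, key i, fun b hb => ?_⟩
  obtain ⟨j, _, rfl⟩ := mem_lv.mp hb
  exact ⟨inferInstance, key j⟩

theorem ll_ord : IsOrd (ll G N L) := by
  refine ⟨inferInstance, fun x hx y hy => ?_, fun b hb => ?_⟩
  · obtain ⟨j, rfl⟩ := mem_ll.mp hx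
    obtain ⟨k, _, rfl⟩ := mem_lv.mp hy
    exact mem_ll.mpr ⟨k, rfl⟩
  · obtain ⟨j, rfl⟩ := mem_ll.mp hb
    exact ⟨(lv_ord j).1, (lv_ord j).2.1⟩

section
variable (D : VDat L) [DEnv N D]

theorem t2_lt_om (n : ℕ) : D.nL n < D.om := (D.om_iff _).mpr ⟨n, rfl⟩

theorem t2_nlt {m n : ℕ} : D.nL m < D.nL n ↔ m < n := by
  constructor
  · intro h
    by_contra h'
    rcases (not_lt.mp h').eq_or_lt with h1 | h1
    · rw [h1] at h
      exact lt_irrefl _ h
    · exact lt_asymm h (D.nL_lt _ _ h1)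
  · exact D.nL_lt m n

theorem t2_below {n : ℕ} {j : LN N L} (h : j < D.nN (N := N) n) : ∃ m, m < n ∧ j = D.nN (N := N) m := by
  have h1 : j.1 < D.nL n := h
  obtain ⟨m, hm⟩ := (D.om_iff _).mp (h1.trans (t2_lt_om D n))
  refine ⟨m, ?_, Subtype.ext hm.symm⟩
  rw [← hm] at h1
  exact (t2_nlt D).mp h1

theorem t2_lt {m n : ℕ} (h : m < n) : D.nN (N := N) m < D.nN (N := N) n := D.nL_lt m n h

theorem lv_zero : lv G (D.nN (N := N) 0) = ∅ := by
  rw [eq_empty_iff]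
  intro x hx
  obtain ⟨j, hj, _⟩ := mem_lv.mp hx
  obtain ⟨m, hm, _⟩ := t2_below D hj
  omega

theorem suc_nN (n : ℕ) : suc (lv G (D.nN (N := N) n)) = lv G (D.nN (N := N) (n + 1)) := by
  apply ext
  intro x
  rw [mem_suc, mem_lv, mem_lv]
  constructor
  · rintro (⟨j, hj, rfl⟩ | rfl)
    · exact ⟨j, hj.trans (t2_lt D (Nat.lt_succ_self n)), rfl⟩
    · exact ⟨_, t2_lt D (Nat.lt_succ_self n), rfl⟩
  · rintro ⟨j, hj, rfl⟩
    obtain ⟨m, hm, rfl⟩ := t2_below D hj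
    rcases Nat.lt_succ_iff_lt_or_eq.mp hm with h | h
    · exact Or.inl ⟨_, t2_lt D h, rfl⟩
    · exact Or.inr (by rw [h])

theorem mem_om {x : MM N G} : x ∈ (omega : MM N G) ↔ ∃ n : ℕ, x = lv G (D.nN (N := N) n) := by
  have hom : ∀ j : LN N L, j < D.omN (N := N) → ∃ n, j = D.nN (N := N) n := by
    intro j hj
    obtain ⟨n, hn⟩ := (D.om_iff _).mp (show j.1 < D.om from hj)
    exact ⟨n, Subtype.ext hn.symm⟩
  constructor
  · intro hx
    have hI : Inductive' (lv G (D.omN (N := N))) := by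
      constructor
      · rw [← lv_zero D, lv_lt]
        exact t2_lt_om D 0
      · intro y hy
        obtain ⟨j, hj, rfl⟩ := mem_lv.mp hy
        obtain ⟨n, rfl⟩ := hom j hj
        rw [suc_nN, lv_lt]
        exact t2_lt_om D (n + 1)
    obtain ⟨j, hj, rfl⟩ := mem_lv.mp (mem_omega.mp hx _ hI)
    obtain ⟨n, rfl⟩ := hom j hj
    exact ⟨n, rfl⟩
  · rintro ⟨n, rfl⟩
    induction n with
    | zero =>
      rw [lv_zero]
      exact empty_mem_omega
    | succ n ih =>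
      rw [← suc_nN]
      exact suc_mem_omega ih

theorem omega_eq : (omega : MM N G) = lv G (D.omN (N := N)) := by
  apply ext
  intro x
  rw [mem_om D, mem_lv]
  constructor
  · rintro ⟨n, rfl⟩
    exact ⟨_, t2_lt_om D n, rfl⟩
  · rintro ⟨j, hj, rfl⟩
    obtain ⟨n, hn⟩ := (D.om_iff _).mp (show j.1 < D.om from hj)
    refine ⟨n, ?_⟩
    have h1 : j = D.nN (N := N) n := Subtype.ext hn.symm
    rw [h1]

end

end Pool.Agent.SplC
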