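import Pool.Agent.SplC.VLDefs

set_option autoImplicit false
set_option linter.all false

/-!
# Module V1 (the type L) difficulty 2

`pl κ n` is the n-th iterate of `Order.succ` at κ (`pl_succ`, `pl_zero`); the family is bounded: `Cardinal.bddAbove_range`.
* `exists_lord`: L := (⨆ n, pl κ n).ord.ToType, o := typein (<) (strictly monotone; every ordinal below the type is a value: `Ordinal.typein_surj`, `Ordinal.type_toType`).
* `lord_lt`: `StrictMono.lt_iff_lt`.
* `lord_card`: o restricts to a bijection between `Iio x` and `Iio (o x)` (every α < o x is `< (⨆ n, pl κ n).ord`, so it is o y by ran, y < x); `Ordinal.mk_Iio_ordinal` or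
  `Cardinal.mk_Iio_ordinal`: `#(Iio (o x)) = lift (o x).card`. (Or use `Ordinal.ToType`/`typein` if you prefer: the ordinal type of Iio x is o x.)
* `lord_n`: o x < (⨆ n, pl κ n).ord gives `(o x).card < ⨆ n, pl κ n` (`Cardinal.lt_ord`), so `(o x).card < pl κ n` for some n (`exists_lt_of_lt_ciSup`), i.e. o x < (pl κ n).ord.
* `lord_elt`: `c ≤ pl κ n < pl κ (n+1) ≤ ⨆ n, pl κ n` (`Order.lt_succ`), `Cardinal.ord_lt_ord`, ran.
* `lord_le`: α ≤ o x implies α < (⨆ n, pl κ n).ord.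
-/

namespace Pool.Agent.SplC

open Cardinal Pool.Agent.SplK Pool.Agent.H55.Lav

theorem exists_lord (κ : Cardinal.{0}) : ∃ (L : Type) (_ : LinearOrder L) (_ : WellFoundedLT L) (o : L → Ordinal.{0}),
    LOrd L o κ := by
  refine ⟨(⨆ n, pl κ n).ord.ToType, inferInstance, inferInstance,
    fun x => Ordinal.typein (α := (⨆ n, pl κ n).ord.ToType) (· < ·) x, ?_, ?_⟩
  · intro x y hxy
    exact (Ordinal.typein_lt_typein (α := (⨆ n, pl κ n).ord.ToType) (· < ·)).2 hxy
  · intro α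
    have h1 := Ordinal.mem_range_typein_iff (α := (⨆ n, pl κ n).ord.ToType) (· < ·) (o := α)
    rw [Ordinal.type_toType] at h1
    exact h1

variable {L : Type} [LinearOrder L] {o : L → Ordinal.{0}} {κ : Cardinal.{0}}

theorem lord_lt (h : LOrd L o κ) {x y : L} : o x < o y ↔ x < y := h.mono.lt_iff_lt

theorem lord_card (h : LOrd L o κ) (x : L) : #(Set.Iio x) = (o x).card := by
  have hb : Function.Bijective
      (fun y : Set.Iio x => (⟨o y.1, h.mono y.2⟩ : Set.Iio (o x))) := by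
    constructor
    · intro y z hyz
      have h1 : o y.1 = o z.1 := congrArg Subtype.val hyz
      exact Subtype.ext (h.mono.injective h1)
    · rintro ⟨α, hα⟩
      obtain ⟨y, hy⟩ := (h.ran α).2 (lt_trans hα ((h.ran (o x)).1 ⟨x, rfl⟩))
      refine ⟨⟨y, ?_⟩, Subtype.ext hy⟩
      exact h.mono.lt_iff_lt.1 (by rw [hy]; exact hα)
  have h1 := Cardinal.lift_mk_eq'.2 ⟨Equiv.ofBijective _ hb⟩
  rw [Cardinal.mk_Iio_ordinal, Cardinal.lift_uzero, Cardinal.lift_inj] at h1
  exact h1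

theorem lord_n (h : LOrd L o κ) (x : L) : ∃ n, o x < (pl κ n).ord := by
  have h1 := (h.ran (o x)).1 ⟨x, rfl⟩
  rw [Cardinal.lt_ord] at h1
  obtain ⟨n, hn⟩ := exists_lt_of_lt_ciSup h1
  exact ⟨n, Cardinal.lt_ord.2 hn⟩

theorem lord_elt (h : LOrd L o κ) {c : Cardinal.{0}} {n : ℕ} (hc : c ≤ pl κ n) : ∃ x, o x = c.ord := by
  refine (h.ran _).2 (Cardinal.ord_lt_ord.2 ?_)
  have h1 : pl κ n < pl κ (n + 1) := by
    rw [pl_succ]
    exact Order.lt_succ _
  exact lt_of_lt_of_le (lt_of_le_of_lt hc h1) (le_ciSup (Cardinal.bddAbove_range (fun n : ℕ => pl κ n)) (n + 1))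

theorem lord_le (h : LOrd L o κ) {x : L} {α : Ordinal.{0}} (hα : α ≤ o x) : ∃ y, o y = α := by
  exact (h.ran α).2 (lt_of_le_of_lt hα ((h.ran (o x)).1 ⟨x, rfl⟩))

end Pool.Agent.SplC
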