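import Pool.Agent.SplC.V1

set_option autoImplicit false
set_option linter.all false

/-!
# Module V2 (functions on L) difficulty 2

* `v2_J`: `#(Iic y) ≤ #(Iio z)`: take an injection (`Cardinal.le_def`, embeddings of the subtypes) and extend it by an arbitrary value (y) outside Iic y.
* `v2_s`: from `#(Iio δ) ≤ #(Iio μ)` (if Iio δ is empty take g = id; otherwise a surjection `Iio μ → Iio δ` (inverse of the injection), extended by an arbitrary value).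
* `v2_p`: `#(Iio μ × Iio μ) = #(Iio μ)` for infinite `Iio μ` (`Cardinal.mul_eq_self`), an equivalence Iio μ ≃ Iio μ × Iio μ; extend arbitrarily.
* `v2_L`: L is infinite, `#(L × L) = #L`.
* `v2_card`: arithmetic of the successor cardinals: if `β < (pl c (n+1)).ord` and c is infinite then `(β + 1).card ≤ pl c n` (`Cardinal.lt_ord`, pl_succ, `Order.lt_succ_iff`, and
  `(β+1).card = β.card + 1 ≤ pl c n` since pl c n is infinite: `ℵ₀ ≤ c ≤ pl c n` by induction).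
* `v2_small`: for κ strong limit (hlim) and c < κ: pl c n < κ (induction: `Order.succ x ≤ 2 ^ x`, `Cardinal.cantor`).
-/

namespace Pool.Agent.SplC

open Cardinal Pool.Agent.SplK Pool.Agent.H55.Lav

theorem v2_J {L : Type} [LinearOrder L] {y z : L} (h : #(Set.Iic y) ≤ #(Set.Iio z)) :
    ∃ g : L → L, (∀ f ≤ y, g f < z) ∧ ∀ f ≤ y, ∀ f' ≤ y, g f = g f' → f = f' := by
  classical
  obtain ⟨e⟩ := (Cardinal.le_def _ _).1 h
  refine ⟨fun f => if hf : f ≤ y then (e ⟨f, hf⟩).1 else f, ?_, ?_⟩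
  · intro f hf
    simp only [dif_pos hf]
    exact (e ⟨f, hf⟩).2
  · intro f hf f' hf' heq
    simp only [dif_pos hf, dif_pos hf'] at heq
    have h1 := e.injective (Subtype.ext heq)
    exact congrArg Subtype.val h1

theorem v2_s {L : Type} [LinearOrder L] {δ μ : L} (h : #(Set.Iio δ) ≤ #(Set.Iio μ)) :
    ∃ g : L → L, ∀ y < δ, ∃ x < μ, g x = y := by
  classical
  obtain ⟨e⟩ := (Cardinal.le_def _ _).1 h
  refine ⟨fun x => if hx : ∃ y : Set.Iio δ, (e y).1 = x then hx.choose.1 else x, ?_⟩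
  intro y hy
  refine ⟨(e ⟨y, hy⟩).1, (e ⟨y, hy⟩).2, ?_⟩
  have hx : ∃ z : Set.Iio δ, (e z).1 = (e ⟨y, hy⟩).1 := ⟨⟨y, hy⟩, rfl⟩
  simp only [dif_pos hx]
  have h1 := e.injective (Subtype.ext hx.choose_spec)
  exact congrArg Subtype.val h1

theorem v2_p {L : Type} [LinearOrder L] {μ : L} (h : ℵ₀ ≤ #(Set.Iio μ)) :
    ∃ p q : L → L, ∀ x y, x < μ → y < μ → ∃ z < μ, p z = x ∧ q z = y := by
  classical
  have h1 : #(Set.Iio μ × Set.Iio μ) = #(Set.Iio μ) := by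
    rw [Cardinal.mk_prod, Cardinal.lift_id, Cardinal.mul_eq_self h]
  obtain ⟨e⟩ := Cardinal.eq.1 h1
  refine ⟨fun z => if hz : z < μ then (e.symm ⟨z, hz⟩).1.1 else z,
    fun z => if hz : z < μ then (e.symm ⟨z, hz⟩).2.1 else z, ?_⟩
  intro x y hx hy
  refine ⟨(e (⟨x, hx⟩, ⟨y, hy⟩)).1, (e (⟨x, hx⟩, ⟨y, hy⟩)).2, ?_⟩
  have h2 : (e (⟨x, hx⟩, ⟨y, hy⟩)).1 < μ := (e (⟨x, hx⟩, ⟨y, hy⟩)).2
  have h3 : e.symm ⟨(e (⟨x, hx⟩, ⟨y, hy⟩)).1, h2⟩ = (⟨x, hx⟩, ⟨y, hy⟩) := by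
    rw [Equiv.symm_apply_eq]
  simp only [dif_pos h2, h3]
  exact ⟨trivial, trivial⟩

theorem v2_L {L : Type} (h : ℵ₀ ≤ #L) : ∃ p q : L → L, ∀ x y, ∃ z, p z = x ∧ q z = y := by
  have h1 : #(L × L) = #L := by
    rw [Cardinal.mk_prod, Cardinal.lift_id, Cardinal.mul_eq_self h]
  obtain ⟨e⟩ := Cardinal.eq.1 h1
  refine ⟨fun z => (e.symm z).1, fun z => (e.symm z).2, fun x y => ⟨e (x, y), ?_⟩⟩
  simp

theorem v2_inf {c : Cardinal.{0}} (hc : ℵ₀ ≤ c) (n : ℕ) : ℵ₀ ≤ pl c n := by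
  induction n with
  | zero => exact hc
  | succ n ih => rw [pl_succ]; exact ih.trans (Order.le_succ _)

theorem v2_card {c : Cardinal.{0}} (hc : ℵ₀ ≤ c) {n : ℕ} {β : Ordinal.{0}} (hβ : β < (pl c (n + 1)).ord) :
    (β + 1).card ≤ pl c n := by
  rw [Cardinal.lt_ord, pl_succ, Order.lt_succ_iff] at hβ
  rw [Ordinal.card_add, Ordinal.card_one]
  calc β.card + 1 ≤ pl c n + 1 := by gcongr
    _ = pl c n := Cardinal.add_one_eq (v2_inf hc n)

theorem v2_small {κ c : Cardinal.{0}} (hlim : ∀ x < κ, 2 ^ x < κ) (hc : c < κ) (n : ℕ) : pl c n < κ := by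
  induction n with
  | zero => exact hc
  | succ n ih =>
    rw [pl_succ]
    exact lt_of_le_of_lt (Order.succ_le_of_lt (Cardinal.cantor _)) (hlim _ ih)

end Pool.Agent.SplC
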