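import Pool.Agent.SplC.V2

set_option autoImplicit false
set_option linter.all false

/-!
# Module V3 (the ordinals and functions of the ground model) difficulty 3

Write λ := ⨆ n, pl κ n. For an ordinal α let `t α : L` be the x with o x = α if α < λ.ord, and the x with o x = 0 otherwise (0 < λ.ord: `lord_elt` with c = 0, or ran); so o (t α) = α for α < λ.ord.
(The values used: naturals n, ω and (pl κ n).ord, (pl c n).ord for c ≤ κ, are all < λ.ord: `lord_elt`, `lord_le`: everything ≤ (pl κ n).ord.)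
 nL n := t n; om := t ω (ω = (ℵ₀).ord: `Cardinal.ord_aleph0`); mu := Function.extend nL (fun n => t (pl κ n).ord) (fun _ => t 0) (nL injective, `Function.Injective.extend_apply`): mu (nL n) = t (pl κ n).ord; so
   `#(Iio (mu (nL n))) = pl κ n` (`lord_card`, `Cardinal.card_ord`).
 c x b := if b < mu (nL 0) then Function.extend nL (fun n => t (pl (max ℵ₀ (o b).card) n).ord) (fun _ => t 0) x else t 0.
   For b < mu (nL 0), i.e. o b < κ.ord, (o b).card < κ, so `max ℵ₀ (o b).card < κ` and pl _ n < κ (`v2_small`): c_lt. (t 0 < mu (nL 0): 0 < κ.ord.)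
   c0: om ≤ b: `ℵ₀ ≤ (o b).card`, `((o b).card).ord ≤ o b` (`Cardinal.ord_card_le`).
 J n' b y f := if b < mu (nL 0) and n' = nL n and y < c (nL (n+1)) b and f ≤ y then (function of `v2_J` for y, z = c (nL n) b) f else t 0. Here `#(Iic y) = (o y + 1).card` — or: Iic y is Iio of t (o y + 1), or
   `#(Iic y) = #(Iio y) + 1 = (o y).card + 1` — `≤ pl (max ℵ₀ (o b).card) n = #(Iio (c (nL n) b))` by `v2_card`. Use `Function.extend nL` or choose n from `∃ n, nL n = n'`.
 s n' δ := for n' = nL n, δ < mu (nL (n+1)): the function of `v2_s` with μ = mu (nL n): `#(Iio δ) = (o δ).card ≤ pl κ n`; otherwise id.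
 p, q: `v2_p` for μ = mu (nL n). pL, qL: `v2_L` (L is infinite since Iio om is).
 om_iff: o x < ω ↔ ∃ n, o x = n (`Ordinal.lt_omega0`). mu_cof: `lord_n`. om_lt: ω < κ.ord from `ℵ₀ < κ`.
-/

namespace Pool.Agent.SplC

open Cardinal Pool.Agent.SplK Pool.Agent.H55.Lav

theorem exists_vdat {L : Type} [LinearOrder L] {o : L → Ordinal.{0}} {κ : Cardinal.{0}} (h : LOrd L o κ)
    (hunc : ℵ₀ < κ) (hlim : ∀ x < κ, 2 ^ x < κ) : ∃ D : VDat L, VSpec o κ D := by
  classical
  have hlt : ∀ {x y : L}, o x < o y ↔ x < y := fun {x y} => lord_lt h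
  have hle : ∀ {x y : L}, o x ≤ o y ↔ x ≤ y := fun {x y} => h.mono.le_iff_le
  have hex : ∀ (n : ℕ) (α : Ordinal.{0}), α ≤ (pl κ n).ord → ∃ x, o x = α := by
    intro n α hα
    obtain ⟨y, hy⟩ := lord_elt h (le_refl (pl κ n))
    exact lord_le h (x := y) (by rw [hy]; exact hα)
  obtain ⟨x0, hx0⟩ := hex 0 0 zero_le
  obtain ⟨t, ht⟩ : ∃ t : Ordinal.{0} → L, ∀ α, (∃ x, o x = α) → o (t α) = α :=
    ⟨fun α => if hh : ∃ x, o x = α then hh.choose else x0, fun α hh => by
      simp only [dif_pos hh]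
      exact hh.choose_spec⟩
  have htn : ∀ (n : ℕ) (α : Ordinal.{0}), α ≤ (pl κ n).ord → o (t α) = α := fun n α hα => ht α (hex n α hα)
  have hω : Ordinal.omega0 ≤ κ.ord := by
    rw [← Cardinal.ord_aleph0]
    exact Cardinal.ord_le_ord.mpr hunc.le
  have hωlt : Ordinal.omega0 < κ.ord := by
    rw [← Cardinal.ord_aleph0]
    exact Cardinal.ord_lt_ord.mpr hunc
  -- naturals
  obtain ⟨nL, hnL⟩ : ∃ nL : ℕ → L, ∀ n, o (nL n) = (n : Ordinal.{0}) :=
    ⟨fun n => t n, fun n => htn 0 n (by rw [pl_zero]; exact (Ordinal.natCast_lt_omega0 n).le.trans hω)⟩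
  have hinj : Function.Injective nL := by
    intro m n hmn
    have h1 := congrArg o hmn
    rw [hnL, hnL] at h1
    exact_mod_cast h1
  obtain ⟨om, hom⟩ : ∃ om : L, o om = Ordinal.omega0 := ⟨t _, htn 0 _ (by rw [pl_zero]; exact hω)⟩
  -- the cardinals
  obtain ⟨mu, hmu⟩ : ∃ mu : L → L, ∀ n, o (mu (nL n)) = (pl κ n).ord := by
    refine ⟨Function.extend nL (fun n => t (pl κ n).ord) (fun _ => t 0), fun n => ?_⟩
    rw [hinj.extend_apply]
    exact htn n _ le_rfl
  obtain ⟨k, hk⟩ : ∃ k : L, k = mu (nL 0) := ⟨_, rfl⟩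
  have hok : o k = κ.ord := by rw [hk, hmu, pl_zero]
  have hbk : ∀ b, b < k → (o b).card < κ := by
    intro b hb
    have h1 : o b < κ.ord := by rw [← hok]; exact hlt.mpr hb
    exact Cardinal.lt_ord.mp h1
  have hmx : ∀ b, b < k → max ℵ₀ (o b).card < κ := fun b hb => max_lt hunc (hbk b hb)
  have hpl : ∀ b, b < k → ∀ n, pl (max ℵ₀ (o b).card) n < κ := fun b hb n => v2_small hlim (hmx b hb) n
  obtain ⟨c, hc1, hc2⟩ : ∃ c : L → L → L, (∀ n b, b < k → o (c (nL n) b) = (pl (max ℵ₀ (o b).card) n).ord) ∧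
      ∀ n b, c n b < k := by
    refine ⟨fun x b => Function.extend nL (fun n => if b < k then t (pl (max ℵ₀ (o b).card) n).ord else x0)
      (fun _ => x0) x, ?_, ?_⟩
    · intro n b hb
      simp only [hinj.extend_apply, if_pos hb]
      refine htn 0 _ ?_
      rw [pl_zero]
      exact Cardinal.ord_le_ord.mpr (hpl b hb n).le
    · intro x b
      have h0 : x0 < k := by
        rw [← hlt, hx0, hok]
        exact Ordinal.omega0_pos.trans hωlt
      by_cases hx : ∃ n, nL n = x
      · obtain ⟨n, rfl⟩ := hx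
        simp only [hinj.extend_apply]
        by_cases hb : b < k
        · rw [if_pos hb, ← hlt, hok, htn 0 _ (by
            rw [pl_zero]
            exact Cardinal.ord_le_ord.mpr (hpl b hb n).le)]
          exact Cardinal.ord_lt_ord.mpr (hpl b hb n)
        · rw [if_neg hb]
          exact h0
      · simp only [Function.extend_apply' _ _ _ hx]
        exact h0
  have hkpos : x0 < k := by
    rw [← hlt, hx0, hok]
    exact Ordinal.omega0_pos.trans hωlt
  -- cardinality of closed segments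
  have hIic : ∀ (y : L) (n : ℕ) (e : Cardinal.{0}), ℵ₀ ≤ e → (pl e (n + 1)).ord ≤ (pl κ (n + 1)).ord →
      o y < (pl e (n + 1)).ord → #(Set.Iic y) ≤ pl e n := by
    intro y n e he hek hy
    obtain ⟨y', hy'⟩ := hex (n + 1) (o y + 1) ((Order.add_one_le_of_lt hy).trans hek)
    have h1 : Set.Iic y = Set.Iio y' := by
      ext x
      rw [Set.mem_Iic, Set.mem_Iio, ← hlt, hy', ← hle, Order.lt_add_one_iff]
    rw [h1, lord_card h, hy']
    exact v2_card he hy
  have hIio : ∀ z : L, #(Set.Iio z) = (o z).card := lord_card h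
  -- J
  have hJex : ∀ (n : ℕ) (b y : L), ∃ g : L → L, b < k → y < c (nL (n + 1)) b →
      (∀ f ≤ y, g f < c (nL n) b) ∧ ∀ f ≤ y, ∀ f' ≤ y, g f = g f' → f = f' := by
    intro n b y
    by_cases hb : b < k
    · by_cases hy : y < c (nL (n + 1)) b
      · have h1 : o y < (pl (max ℵ₀ (o b).card) (n + 1)).ord := by
          rw [← hc1 (n + 1) b hb]
          exact hlt.mpr hy
        have h2 : #(Set.Iic y) ≤ pl (max ℵ₀ (o b).card) n := by
          refine hIic y n _ (le_max_left _ _) ?_ h1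
          refine Cardinal.ord_le_ord.mpr ((hpl b hb (n + 1)).le.trans ?_)
          have : ∀ m, κ ≤ pl κ m := by
            intro m
            induction m with
            | zero => exact le_rfl
            | succ m ih => rw [pl_succ]; exact ih.trans (Order.le_succ _)
          exact this _
        have h3 : #(Set.Iio (c (nL n) b)) = pl (max ℵ₀ (o b).card) n := by
          rw [hIio, hc1 n b hb, Cardinal.card_ord]
        obtain ⟨g, hg1, hg2⟩ := v2_J (y := y) (z := c (nL n) b) (by rw [h3]; exact h2)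
        exact ⟨g, fun _ _ => ⟨hg1, hg2⟩⟩
      · exact ⟨id, fun _ h2 => (hy h2).elim⟩
    · exact ⟨id, fun h1 => (hb h1).elim⟩
  choose G hG using hJex
  obtain ⟨J, hJ1, hJ2⟩ : ∃ J : L → L → L → L → L, (∀ (n : ℕ) b y f, b < k → y < c (nL (n + 1)) b → f ≤ y →
      J (nL n) b y f = G n b y f) ∧ ∀ n b y f, J n b y f < k := by
    refine ⟨fun x b y f => Function.extend nL (fun n => if b < k ∧ y < c (nL (n + 1)) b ∧ f ≤ y then G n b y f else x0)
      (fun _ => x0) x, ?_, ?_⟩
    · intro n b y f h1 h2 h3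
      simp only [hinj.extend_apply, if_pos (show b < k ∧ y < c (nL (n + 1)) b ∧ f ≤ y from ⟨h1, h2, h3⟩)]
    · intro x b y f
      by_cases hx : ∃ n, nL n = x
      · obtain ⟨n, rfl⟩ := hx
        simp only [hinj.extend_apply]
        by_cases hh : b < k ∧ y < c (nL (n + 1)) b ∧ f ≤ y
        · rw [if_pos hh]
          exact ((hG n b y hh.1 hh.2.1).1 f hh.2.2).trans (hc2 _ _)
        · rw [if_neg hh]
          exact hkpos
      · simp only [Function.extend_apply' _ _ _ hx]
        exact hkpos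
  -- s
  have hmuIio : ∀ n, #(Set.Iio (mu (nL n))) = pl κ n := by
    intro n
    rw [hIio, hmu, Cardinal.card_ord]
  have hsex : ∀ (n : ℕ) (δ : L), ∃ g : L → L, δ < mu (nL (n + 1)) → ∀ y < δ, ∃ x < mu (nL n), g x = y := by
    intro n δ
    by_cases hδ : δ < mu (nL (n + 1))
    · have h1 : o δ < (pl κ (n + 1)).ord := by
        rw [← hmu]
        exact hlt.mpr hδ
      have h2 : #(Set.Iic δ) ≤ pl κ n := hIic δ n κ hunc.le le_rfl h1
      have h3 : #(Set.Iio δ) ≤ #(Set.Iio (mu (nL n))) := by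
        rw [hmuIio n]
        exact (Cardinal.mk_le_mk_of_subset Set.Iio_subset_Iic_self).trans h2
      obtain ⟨g, hg⟩ := v2_s h3
      exact ⟨g, fun _ => hg⟩
    · exact ⟨id, fun h1 => (hδ h1).elim⟩
  choose S hS using hsex
  obtain ⟨s, hs⟩ : ∃ s : L → L → L → L, ∀ n, s (nL n) = S n :=
    ⟨Function.extend nL S (fun _ _ => id), fun n => hinj.extend_apply _ _ n⟩
  have hpex : ∀ n : ℕ, ∃ pq : (L → L) × (L → L), ∀ x y, x < mu (nL n) → y < mu (nL n) →
      ∃ z < mu (nL n), pq.1 z = x ∧ pq.2 z = y := by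
    intro n
    obtain ⟨p, q, hpq⟩ := v2_p (μ := mu (nL n)) (by rw [hmuIio]; exact v2_inf hunc.le n)
    exact ⟨(p, q), hpq⟩
  choose PQ hPQ using hpex
  obtain ⟨p, hp⟩ : ∃ p : L → L → L, ∀ n, p (nL n) = (PQ n).1 :=
    ⟨Function.extend nL (fun n => (PQ n).1) (fun _ => id), fun n => hinj.extend_apply _ _ n⟩
  obtain ⟨q, hq⟩ : ∃ q : L → L → L, ∀ n, q (nL n) = (PQ n).2 :=
    ⟨Function.extend nL (fun n => (PQ n).2) (fun _ => id), fun n => hinj.extend_apply _ _ n⟩
  obtain ⟨pL, qL, hpqL⟩ := v2_L (L := L) (by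
    have h1 : #(Set.Iio k) ≤ #L := Cardinal.mk_set_le _
    rw [hk, hmuIio, pl_zero] at h1
    exact hunc.le.trans h1)
  refine ⟨{ nL := nL, om := om, mu := mu, c := c, J := J, s := s, p := p, q := q, pL := pL, qL := qL
            nL_lt := ?_, om_iff := ?_, om_lt := ?_, mu_lt := ?_, mu_cof := ?_, c_lt := ?_, c0 := ?_, J_lt := ?_
            J_c := ?_, J_inj := ?_, s_sur := ?_, pq := ?_, pqL := hpqL }, { mu := hmu, c := ?_ }⟩
  · intro m n hmn
    rw [← hlt, hnL, hnL]
    exact_mod_cast hmn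
  · intro x
    rw [← hlt, hom, Ordinal.lt_omega0]
    constructor
    · rintro ⟨n, hn⟩
      refine ⟨n, h.mono.injective ?_⟩
      rw [hnL, hn]
    · rintro ⟨n, rfl⟩
      exact ⟨n, hnL n⟩
  · rw [← hlt, hom, hmu, pl_zero]
    exact hωlt
  · intro n
    rw [← hlt, hmu, hmu, pl_succ]
    exact Cardinal.ord_lt_ord.mpr (Order.lt_succ _)
  · intro x
    obtain ⟨n, hn⟩ := lord_n h x
    exact ⟨n, by rw [← hlt, hmu]; exact hn⟩
  · intro n b
    rw [← hk]
    exact hc2 n b
  · intro b hb hbk'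
    rw [← hk] at hbk'
    rw [← hle, hc1 0 b hbk', pl_zero]
    have h1 : ℵ₀ ≤ (o b).card := by
      have h2 : Ordinal.omega0 ≤ o b := by rw [← hom]; exact hle.mpr hb
      have h3 := Ordinal.card_le_card h2
      rwa [Ordinal.card_omega0] at h3
    rw [max_eq_right h1]
    exact Cardinal.ord_card_le _
  · intro n b y f
    rw [← hk]
    exact hJ2 n b y f
  · intro n b y f hb hy hf
    rw [← hk] at hb
    rw [hJ1 n b y f hb hy hf]
    exact (hG n b y hb hy).1 f hf
  · intro n b y f f' hb hy hf hf' he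
    rw [← hk] at hb
    rw [hJ1 n b y f hb hy hf, hJ1 n b y f' hb hy hf'] at he
    exact (hG n b y hb hy).2 f hf f' hf' he
  · intro n δ hδ y hy
    rw [hs]
    exact hS n δ hδ y hy
  · intro n x y hx hy
    rw [hp, hq]
    exact hPQ n x y hx hy
  · intro n b hb
    have hb' : b < k := by rw [hk]; exact hb
    exact hc1 n b hb'

end Pool.Agent.SplC
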