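import Pool.Agent.SplC.VDefs

set_option autoImplicit false
set_option linter.all false

/-!
# The type of the ordinals below `κ⁺ω`
-/

namespace Pool.Agent.SplC

open Cardinal Pool.Agent.SplK Pool.Agent.H55.Lav

/-- `L` is the wellordered set of the ordinals below `κ⁺ω`; `o x` is the ordinal represented by `x`. -/
structure LOrd (L : Type) [LinearOrder L] (o : L → Ordinal.{0}) (κ : Cardinal.{0}) : Prop where
  mono : StrictMono o
  ran : ∀ α, (∃ x, o x = α) ↔ α < (⨆ n, pl κ n).ord

/-- The intended meaning of the fields `mu`, `c` of `VDat`. -/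
structure VSpec {L : Type} [LinearOrder L] (o : L → Ordinal.{0}) (κ : Cardinal.{0}) (D : VDat L) : Prop where
  mu : ∀ n, o (D.mu (D.nL n)) = (pl κ n).ord
  c : ∀ n b, b < D.k → o (D.c (D.nL n) b) = (pl (max ℵ₀ (o b).card) n).ord

end Pool.Agent.SplC
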